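import Mathlib

set_option autoImplicit false
open Finset

namespace Pool.Agent.Results.MP_f7abb8_nt.SingleOddSquare

namespace NUP

/-- sum of all divisors -/
def sg (n : ℕ) : ℕ := ∑ d ∈ n.divisors, d

/-- nonunitary divisors -/
def nd (n : ℕ) : Finset ℕ := n.divisors.filter (fun d => 1 < Nat.gcd d (n / d))

theorem sg_mul {m n : ℕ} (h : m.Coprime n) : sg (m * n) = sg m * sg n :=
  Nat.Coprime.sum_divisors_mul h

theorem sg_prime {q : ℕ} (hq : q.Prime) : sg q = q + 1 := by
  simp [sg, hq.sum_divisors]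

theorem sg_one : sg 1 = 1 := by simp [sg]

theorem sg_ge {n : ℕ} (hn : 0 < n) : n ≤ sg n :=
  Finset.single_le_sum (f := fun d => d) (fun _ _ => Nat.zero_le _) (Nat.mem_divisors_self n hn.ne')

theorem sg_ge' {n : ℕ} (hn : 1 < n) : n + 1 ≤ sg n := by
  have : ({1, n} : Finset ℕ) ⊆ n.divisors := by
    intro d hd
    simp only [mem_insert, mem_singleton] at hd
    rcases hd with rfl | rfl
    · simp; omega
    · simp; omega
  have h2 := Finset.sum_le_sum_of_subset (f := fun d : ℕ => d) this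
  rw [Finset.sum_pair (by omega)] at h2
  unfold sg; omega

/-- equality means prime -/
theorem prime_of_sg {n : ℕ} (hn : 1 < n) (h : sg n ≤ n + 1) : n.Prime := by
  by_contra hp
  have hm := Nat.minFac_prime (n := n) (by omega)
  have hd := Nat.minFac_dvd n
  have hne : n.minFac ≠ n := fun he => hp (he ▸ hm)
  have : ({1, n.minFac, n} : Finset ℕ) ⊆ n.divisors := by
    intro d hd'
    simp only [mem_insert, mem_singleton] at hd'
    rcases hd' with rfl | rfl | rfl
    · simp; omega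
    · simp [hd]; omega
    · simp; omega
  have h2 := Finset.sum_le_sum_of_subset (f := fun d : ℕ => d) this
  rw [Finset.sum_insert (by simp; exact ⟨hm.one_lt.ne, by omega⟩), Finset.sum_pair hne] at h2
  have := hm.two_le
  unfold sg at h; omega

/-- odd squarefree: 1, prime, or 4 divides sg -/
theorem four_dvd {g : ℕ} (hs : Squarefree g) (ho : ¬ 2 ∣ g) : g = 1 ∨ g.Prime ∨ 4 ∣ sg g := by
  by_cases h1 : g = 1
  · exact Or.inl h1
  right
  have hq := Nat.minFac_prime h1
  obtain ⟨h, hh⟩ := Nat.minFac_dvd g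
  set q := g.minFac
  have hcop : q.Coprime h := by
    apply Nat.coprime_of_squarefree_mul
    rw [← hh]; exact hs
  by_cases h2 : h = 1
  · left; rw [hh, h2, mul_one]; exact hq
  right
  have hr := Nat.minFac_prime h2
  obtain ⟨k, hk⟩ := Nat.minFac_dvd h
  set r := h.minFac
  have hs2 : Squarefree h := by
    rw [hh] at hs; exact Squarefree.of_mul_right hs
  have hcop2 : r.Coprime k := by
    apply Nat.coprime_of_squarefree_mul
    rw [← hk]; exact hs2
  have hq2 : q % 2 = 1 := by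
    by_contra hc
    exact ho (dvd_trans (Nat.dvd_of_mod_eq_zero (by omega)) ⟨h, hh⟩)
  have hr2 : r % 2 = 1 := by
    by_contra hc
    exact ho (dvd_trans (dvd_trans (Nat.dvd_of_mod_eq_zero (by omega)) ⟨k, hk⟩) ⟨q, by rw [hh, mul_comm]⟩)
  have e : sg g = (q + 1) * ((r + 1) * sg k) := by
    conv_lhs => rw [hh]
    rw [sg_mul hcop, sg_prime hq]
    conv_lhs => rw [hk]
    rw [sg_mul hcop2, sg_prime hr]
  rw [e, ← mul_assoc]
  apply dvd_mul_of_dvd_left
  obtain ⟨x, hx⟩ : 2 ∣ q + 1 := by omega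
  obtain ⟨y, hy⟩ : 2 ∣ r + 1 := by omega
  exact ⟨x * y, by rw [hx, hy]; ring⟩

/-- odd squarefree with odd sg is 1 -/
theorem odd_one {g : ℕ} (hs : Squarefree g) (ho : ¬ 2 ∣ g) (h : ¬ 2 ∣ sg g) : g = 1 := by
  rcases four_dvd hs ho with h1 | h1 | h1
  · exact h1
  · rw [sg_prime h1] at h; omega
  · exact absurd (dvd_trans (by norm_num) h1) h


theorem mem_nd {n d : ℕ} (hn : 0 < n) : d ∈ nd n ↔ ∃ q : ℕ, q.Prime ∧ ∃ e, n = d * e ∧ q ∣ d ∧ q ∣ e := by
  unfold nd
  rw [mem_filter, Nat.mem_divisors]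
  constructor
  · rintro ⟨⟨hd, -⟩, hg⟩
    refine ⟨(Nat.gcd d (n / d)).minFac, Nat.minFac_prime (by omega), n / d, ?_, ?_, ?_⟩
    · exact (Nat.mul_div_cancel' hd).symm
    · exact dvd_trans (Nat.minFac_dvd _) (Nat.gcd_dvd_left _ _)
    · exact dvd_trans (Nat.minFac_dvd _) (Nat.gcd_dvd_right _ _)
  · rintro ⟨q, hq, e, he, h1, h2⟩
    have hd0 : 0 < d := by
      rcases Nat.eq_zero_or_pos d with h | h
      · subst h; simp at he; omega
      · exact h
    have he' : n / d = e := by rw [he]; exact Nat.mul_div_cancel_left _ hd0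
    refine ⟨⟨⟨e, he⟩, by omega⟩, ?_⟩
    rw [he']
    have hdvd : q ∣ Nat.gcd d e := Nat.dvd_gcd h1 h2
    have hpos : 0 < Nat.gcd d e := Nat.gcd_pos_of_pos_left _ hd0
    exact lt_of_lt_of_le hq.one_lt (Nat.le_of_dvd hpos hdvd)

/-- the sum of nonunitary divisors when only one prime divides n more than once -/
theorem formula {p a f : ℕ} (hp : p.Prime) (hf : Squarefree f) (hpf : ¬ p ∣ f) :
    ∑ d ∈ nd (p ^ a * f), d = sg f * ∑ i ∈ Ioo 0 a, p ^ i := by
  have hf0 : 0 < f := Nat.pos_of_ne_zero hf.ne_zero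
  have hn : 0 < p ^ a * f := Nat.mul_pos (pow_pos hp.pos _) hf0
  have key : nd (p ^ a * f) = (f.divisors ×ˢ Ioo 0 a).image (fun x => x.1 * p ^ x.2) := by
    ext d
    rw [mem_nd hn, mem_image]
    constructor
    · rintro ⟨q, hq, e, he, h1, h2⟩
      have hqp : q = p := by
        by_contra hne
        have h3 : q * q ∣ p ^ a * f := by rw [he]; exact mul_dvd_mul h1 h2
        have hc : (q * q).Coprime (p ^ a) := by
          have : q.Coprime p := (Nat.coprime_primes hq hp).2 hne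
          exact Nat.Coprime.pow_right _ (Nat.Coprime.mul_left this this)
        have h4 : q * q ∣ f := hc.dvd_of_dvd_mul_left h3
        exact hq.one_lt.ne' (Nat.isUnit_iff.1 (hf q h4))
      subst hqp
      have hd : d ∣ q ^ a * f := ⟨e, he⟩
      obtain ⟨k1, k2, hk1, hk2, hk⟩ := (Nat.dvd_mul).1 hd
      obtain ⟨i, hi, rfl⟩ := (Nat.dvd_prime_pow hq).1 hk1
      refine ⟨(k2, i), ?_, by simp only; rw [mul_comm]; exact hk⟩
      rw [mem_product, Nat.mem_divisors, mem_Ioo]
      have hqk2 : ¬ q ∣ k2 := fun h => hpf (dvd_trans h hk2)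
      refine ⟨⟨hk2, hf0.ne'⟩, ?_, ?_⟩
      · rcases Nat.eq_zero_or_pos i with h | h
        · exfalso; subst h; simp at hk; subst hk; exact hqk2 h1
        · exact h
      · show i < a
        rcases Nat.lt_or_ge i a with h | h
        · exact h
        · exfalso
          have hia : i = a := le_antisymm hi h
          subst hia
          obtain ⟨f', hf'⟩ := hk2
          have : f = k2 * e := by
            have h5 : q ^ i * f = q ^ i * (k2 * e) := by rw [he, ← hk]; ring
            exact Nat.eq_of_mul_eq_mul_left (pow_pos hq.pos _) h5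
          exact hpf (this ▸ Dvd.dvd.mul_left h2 k2)
    · rintro ⟨⟨k, i⟩, hx, rfl⟩
      rw [mem_product, Nat.mem_divisors, mem_Ioo] at hx
      obtain ⟨⟨⟨l, hl⟩, -⟩, hi0, hia⟩ := hx
      simp only at hi0 hia hl ⊢
      refine ⟨p, hp, l * p ^ (a - i), ?_, ?_, ?_⟩
      · have : p ^ a = p ^ i * p ^ (a - i) := by rw [← pow_add]; congr 1; omega
        rw [hl, this]; ring
      · exact Dvd.dvd.mul_left (dvd_pow_self _ (by omega)) _
      · exact Dvd.dvd.mul_left (dvd_pow_self _ (by omega)) _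
  rw [key, sum_image, sum_product, sg, Finset.sum_mul_sum]
  rintro ⟨k, i⟩ hx ⟨k', i'⟩ hx' he
  simp only [coe_product, Set.mem_prod, mem_coe, Nat.mem_divisors] at hx hx' he
  have hk : ¬ p ∣ k := fun h => hpf (dvd_trans h hx.1.1)
  have hk' : ¬ p ∣ k' := fun h => hpf (dvd_trans h hx'.1.1)
  have hii : i = i' := by
    rcases lt_trichotomy i i' with h | h | h
    · exfalso
      have e1 : p ^ i' = p ^ i * p ^ (i' - i) := by rw [← pow_add]; congr 1; omega
      rw [e1] at he
      have : k = k' * p ^ (i' - i) := by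
        apply Nat.eq_of_mul_eq_mul_right (pow_pos hp.pos i)
        rw [he]; ring
      exact hk (this ▸ Dvd.dvd.mul_left (dvd_pow_self _ (by omega)) _)
    · exact h
    · exfalso
      have e1 : p ^ i = p ^ i' * p ^ (i - i') := by rw [← pow_add]; congr 1; omega
      rw [e1] at he
      have : k' = k * p ^ (i - i') := by
        apply Nat.eq_of_mul_eq_mul_right (pow_pos hp.pos i')
        rw [← he]; ring
      exact hk' (this ▸ Dvd.dvd.mul_left (dvd_pow_self _ (by omega)) _)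
  subst hii
  have : k = k' := Nat.eq_of_mul_eq_mul_right (pow_pos hp.pos i) he
  rw [this]

theorem geom (p a : ℕ) : (∑ i ∈ Ioo 0 (a + 1), p ^ i) = p * ∑ i ∈ range a, p ^ i := by
  rw [mul_sum]
  have : Ioo 0 (a + 1) = (range a).image (fun i => i + 1) := by
    ext x; simp only [mem_Ioo, mem_image, mem_range]
    constructor
    · rintro ⟨h1, h2⟩; exact ⟨x - 1, by omega, by omega⟩
    · rintro ⟨y, hy, rfl⟩; omega
  rw [this, sum_image (fun x _ y _ h => by simpa using h)]
  exact sum_congr rfl fun i _ => by rw [pow_succ]; ring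

theorem geo (p b : ℕ) (hp : 1 ≤ p) : (p - 1) * (∑ i ∈ range b, p ^ i) + 1 = p ^ b := by
  induction b with
  | zero => simp
  | succ b ih =>
    rw [sum_range_succ, mul_add, add_right_comm, ih, pow_succ]
    obtain ⟨q, rfl⟩ : ∃ q, p = q + 1 := ⟨p - 1, by omega⟩
    simp; ring

/-- exactly one squared prime: n is of the known form -/
theorem partA {p b f : ℕ} (hp : p.Prime) (hf : Squarefree f) (hpf : ¬ p ∣ f)
    (hE : ∑ d ∈ nd (p ^ (b + 1) * f), d = p ^ (b + 1) * f) :
    p = 2 ∧ Nat.Prime (2 ^ b - 1) ∧ f = 2 ^ b - 1 := by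
  rw [formula hp hf hpf, geom] at hE
  have hgeo := geo p b hp.one_lt.le
  set M := ∑ i ∈ range b, p ^ i with hM
  have hf0 : 0 < f := Nat.pos_of_ne_zero hf.ne_zero
  have E : sg f * M = p ^ b * f := by
    apply Nat.eq_of_mul_eq_mul_left hp.pos
    rw [pow_succ] at hE
    calc p * (sg f * M) = sg f * (p * M) := by ring
      _ = _ := hE
      _ = _ := by ring
  have hM0 : 0 < M := by
    rcases Nat.eq_zero_or_pos M with h | h
    · exfalso
      rw [h, mul_zero] at E
      have := Nat.mul_pos (pow_pos hp.pos b) hf0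
      omega
    · exact h
  have hcop : M.Coprime (p ^ b) := by
    rw [← hgeo]
    simp
  by_cases hp2 : p = 2
  · subst hp2
    have hM1 : M + 1 = 2 ^ b := by simpa using hgeo
    have hMf : M ∣ f := hcop.dvd_of_dvd_mul_left (Dvd.intro_left _ E)
    obtain ⟨g, hg⟩ := hMf
    have hcg : M.Coprime g := by
      apply Nat.coprime_of_squarefree_mul; rw [← hg]; exact hf
    have hg0 : 0 < g := by
      rcases Nat.eq_zero_or_pos g with h | h
      · subst h; omega
      · exact h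
    have E2 : sg M * sg g = (M + 1) * g := by
      apply Nat.eq_of_mul_eq_mul_right hM0
      have e3 : sg f = sg M * sg g := by rw [hg, sg_mul hcg]
      rw [← e3, E, ← hM1, hg]; ring
    refine ⟨rfl, ?_⟩
    by_cases hM2 : M = 1
    · exfalso
      rw [hM2] at hg hM1
      rw [← hM1, hM2, mul_one] at E
      rcases four_dvd hf hpf with h | h | h
      · rw [h, sg_one] at E; omega
      · rw [sg_prime h] at E; have := h.two_le; omega
      · rw [E] at h
        apply hpf; omega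
    · have hM3 : 1 < M := by omega
      have h1 := sg_ge' hM3
      have h2 := sg_ge hg0
      have h3 : sg M ≤ M + 1 := by
        by_contra hc
        have h4 : (M + 2) * g ≤ sg M * sg g := Nat.mul_le_mul (by omega) h2
        rw [E2] at h4
        nlinarith
      have h5 : g = 1 := by
        by_contra hc
        have h6 := sg_ge' (n := g) (by omega)
        have h7 : (M + 1) * (g + 1) ≤ sg M * sg g := Nat.mul_le_mul h1 h6
        rw [E2] at h7
        nlinarith
      have h6 : M = 2 ^ b - 1 := by omega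
      rw [← h6]
      exact ⟨prime_of_sg hM3 h3, by rw [hg, h5, mul_one]⟩
  · exfalso
    have hp3 : 3 ≤ p := by
      have := hp.two_le; omega
    have hodd : ¬ 2 ∣ p ^ b := by
      intro h
      have := Nat.prime_two.dvd_of_dvd_pow h
      exact hp2 ((Nat.prime_dvd_prime_iff_eq Nat.prime_two hp).1 this).symm
    have hbig : 2 * M + 1 ≤ p ^ b := by
      rw [← hgeo]
      have : 2 * M ≤ (p - 1) * M := Nat.mul_le_mul_right _ (by omega)
      omega
    have hab : 2 * f < sg f := by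
      by_contra hc
      have h1 : sg f * M ≤ 2 * f * M := Nat.mul_le_mul_right _ (by omega)
      have h2 : (2 * M + 1) * f ≤ p ^ b * f := Nat.mul_le_mul_right _ hbig
      rw [← E] at h2
      nlinarith
    by_cases h2f : 2 ∣ f
    · obtain ⟨g, hg⟩ := h2f
      have hcg : Nat.Coprime 2 g := by
        apply Nat.coprime_of_squarefree_mul; rw [← hg]; exact hf
      have hgo : ¬ 2 ∣ g := fun h => by
        have := Nat.Coprime.eq_one_of_dvd hcg h
        omega
      have hgs : Squarefree g := by rw [hg] at hf; exact Squarefree.of_mul_right hf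
      have e3 : sg f = 3 * sg g := by rw [hg, sg_mul hcg, sg_prime Nat.prime_two]
      rcases four_dvd hgs hgo with h | h | h
      · rw [h] at hg e3; rw [sg_one] at e3; omega
      · rw [sg_prime h] at e3
        have := h.two_le
        have : g ≠ 2 := fun h => by subst h; exact hgo (dvd_refl _)
        omega
      · have h4 : 4 ∣ p ^ b * (2 * g) := by
          rw [← hg, ← E, e3]
          exact Dvd.dvd.mul_right (Dvd.dvd.mul_left h 3) M
        have h5 : 2 ∣ p ^ b * g := by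
          have : p ^ b * (2 * g) = 2 * (p ^ b * g) := by ring
          omega
        rcases (Nat.Prime.dvd_mul Nat.prime_two).1 h5 with h6 | h6
        · exact hodd h6
        · exact hgo h6
    · have : ¬ 2 ∣ sg f := by
        intro h
        have h5 : 2 ∣ p ^ b * f := by rw [← E]; exact Dvd.dvd.mul_right h M
        rcases (Nat.Prime.dvd_mul Nat.prime_two).1 h5 with h6 | h6
        · exact hodd h6
        · exact h2f h6
      have := odd_one hf h2f this
      rw [this, sg_one] at hab; omega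


/-- any set of nonunitary divisors has sum at most the total -/
theorem sum_le {n : ℕ} (S : Finset ℕ) (hS : S ⊆ nd n) : ∑ d ∈ S, d ≤ ∑ d ∈ nd n, d :=
  sum_le_sum_of_subset hS

theorem two_geom (a : ℕ) : (∑ i ∈ range a, 2 ^ i) + 1 = 2 ^ a := by
  have := geo 2 a (by norm_num)
  simpa using this

theorem two_geom' (a : ℕ) : (∑ i ∈ Ioo 0 (a + 1), 2 ^ i) + 2 = 2 ^ (a + 1) := by
  rw [geom]
  have := two_geom a
  rw [pow_succ]; omega

/-- r odd prime with r^2 | n, then 2^a < r -/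
theorem partB1 {a r k : ℕ} (hr : r.Prime) (hr2 : r ≠ 2)
    (hE : ∑ d ∈ nd (2 ^ a * r ^ 2 * k), d = 2 ^ a * r ^ 2 * k) (hk : 0 < k) (ha : 0 < a) :
    2 ^ a < r := by
  set n := 2 ^ a * r ^ 2 * k with hn
  have hn0 : 0 < n := Nat.mul_pos (Nat.mul_pos (pow_pos (by norm_num) _) (pow_pos hr.pos _)) hk
  have hrodd : ¬ 2 ∣ r := fun h => hr2 ((Nat.prime_dvd_prime_iff_eq Nat.prime_two hr).1 h).symm
  obtain ⟨a', rfl⟩ : ∃ a', a = a' + 1 := ⟨a - 1, by omega⟩
  set S1 := (range (a' + 2)).image (fun i => 2 ^ i * (r * k)) with hS1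
  set S2 := (Ioo 0 (a' + 1)).image (fun i => 2 ^ i * (r * (r * k))) with hS2
  have hrk : 0 < r * k := Nat.mul_pos hr.pos hk
  have hsub : S1 ∪ S2 ⊆ nd n := by
    intro d hd
    rw [mem_union, hS1, hS2, mem_image, mem_image] at hd
    rw [mem_nd hn0]
    rcases hd with ⟨i, hi, rfl⟩ | ⟨i, hi, rfl⟩
    · rw [mem_range] at hi
      have e1 : 2 ^ (a' + 1) = 2 ^ i * 2 ^ (a' + 1 - i) := by rw [← pow_add]; congr 1; omega
      refine ⟨r, hr, 2 ^ (a' + 1 - i) * r, ?_, ?_, ?_⟩
      · rw [hn, e1]; ring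
      · exact Dvd.dvd.mul_left (Dvd.intro _ rfl) _
      · exact Dvd.intro_left _ rfl
    · rw [mem_Ioo] at hi
      have e1 : 2 ^ (a' + 1) = 2 ^ i * 2 ^ (a' + 1 - i) := by rw [← pow_add]; congr 1; omega
      refine ⟨2, Nat.prime_two, 2 ^ (a' + 1 - i), ?_, ?_, ?_⟩
      · rw [hn, e1]; ring
      · exact Dvd.dvd.mul_right (dvd_pow_self _ (by omega)) _
      · exact dvd_pow_self _ (by omega)
  have hdisj : Disjoint S1 S2 := by
    rw [Finset.disjoint_left]
    intro d h1 h2
    rw [hS1, mem_image] at h1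
    rw [hS2, mem_image] at h2
    obtain ⟨i, -, hi⟩ := h1
    obtain ⟨j, -, hj⟩ := h2
    have h3 : 2 ^ i = 2 ^ j * r := by
      apply Nat.eq_of_mul_eq_mul_right hrk
      rw [hi, ← hj]; ring
    have h4 : r ∣ 2 ^ i := ⟨2 ^ j, by rw [h3]; ring⟩
    exact hr2 ((Nat.prime_dvd_prime_iff_eq hr Nat.prime_two).1 (hr.dvd_of_dvd_pow h4))
  have h := sum_le _ hsub
  rw [hE, sum_union hdisj, hS1, hS2, sum_image, sum_image, ← sum_mul, ← sum_mul] at h
  · have g1 := two_geom (a' + 2)
    have g2 := two_geom' a'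
    set x := 2 ^ (a' + 1) with hx
    have g3 : 2 ^ (a' + 2) = 2 * x := by rw [hx, pow_succ 2 (a' + 1)]; ring
    have g4 : (∑ i ∈ range (a' + 2), 2 ^ i) = 2 * x - 1 := by omega
    have g5 : (∑ i ∈ Ioo 0 (a' + 1), 2 ^ i) = x - 2 := by omega
    have hx2 : 2 ≤ x := by
      rw [hx, pow_succ]; have := pow_pos (show 0 < 2 by norm_num) a'; omega
    rw [g4, g5, hn] at h
    obtain ⟨z, hz⟩ : ∃ z, x = z + 2 := ⟨x - 2, by omega⟩
    have h' : (2 * x - 1 + (x - 2) * r) * (r * k) ≤ (x * r) * (r * k) := by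
      calc _ = (2 * x - 1) * (r * k) + (x - 2) * (r * (r * k)) := by ring
        _ ≤ _ := h
        _ = _ := by ring
    have h'' := Nat.le_of_mul_le_mul_right h' hrk
    rw [hz] at h''
    have h3 : 2 * z + 3 ≤ 2 * r := by
      have e1 : 2 * (z + 2) - 1 = 2 * z + 3 := by omega
      have e2 : z + 2 - 2 = z := by omega
      rw [e1, e2] at h''
      nlinarith
    have hx2' : 2 ∣ x := by rw [hx]; exact dvd_pow_self _ (by omega)
    omega
  · intro i _ j _ hij
    have := Nat.eq_of_mul_eq_mul_right (Nat.mul_pos hr.pos hrk) hij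
    exact Nat.pow_right_injective (le_refl 2) this
  · intro i _ j _ hij
    have := Nat.eq_of_mul_eq_mul_right hrk hij
    exact Nat.pow_right_injective (le_refl 2) this

/-- any odd prime r | n : 2^(a-1) ≤ r+1, equality only for the known numbers -/
theorem partB2 {a r k : ℕ} (hr : r.Prime) (hr2 : r ≠ 2)
    (hE : ∑ d ∈ nd (2 ^ (a + 1) * r * k), d = 2 ^ (a + 1) * r * k) (hk : ¬ 2 ∣ k)
    (hne : ¬ ∃ p, Nat.Prime (2 ^ p - 1) ∧ 2 ^ (a + 1) * r * k = 2 ^ (p + 1) * (2 ^ p - 1)) :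
    2 ^ a < r := by
  have hk0 : 0 < k := by
    rcases Nat.eq_zero_or_pos k with h | h
    · subst h; simp at hk
    · exact h
  set n := 2 ^ (a + 1) * r * k with hn
  have hn0 : 0 < n := Nat.mul_pos (Nat.mul_pos (pow_pos (by norm_num) _) hr.pos) hk0
  have hrodd : ¬ 2 ∣ r := fun h => hr2 ((Nat.prime_dvd_prime_iff_eq Nat.prime_two hr).1 h).symm
  set S1 := (Ioo 0 (a + 1)).image (fun i => 2 ^ i * k) with hS1
  set S2 := (Ioo 0 (a + 1)).image (fun i => 2 ^ i * (r * k)) with hS2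
  have hsub : S1 ∪ S2 ⊆ nd n := by
    intro d hd
    rw [mem_union, hS1, hS2, mem_image, mem_image] at hd
    rw [mem_nd hn0]
    rcases hd with ⟨i, hi, rfl⟩ | ⟨i, hi, rfl⟩
    · rw [mem_Ioo] at hi
      have e1 : 2 ^ (a + 1) = 2 ^ i * 2 ^ (a + 1 - i) := by rw [← pow_add]; congr 1; omega
      refine ⟨2, Nat.prime_two, 2 ^ (a + 1 - i) * r, ?_, ?_, ?_⟩
      · rw [hn, e1]; ring
      · exact Dvd.dvd.mul_right (dvd_pow_self _ (by omega)) _
      · exact Dvd.dvd.mul_right (dvd_pow_self _ (by omega)) _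
    · rw [mem_Ioo] at hi
      have e1 : 2 ^ (a + 1) = 2 ^ i * 2 ^ (a + 1 - i) := by rw [← pow_add]; congr 1; omega
      refine ⟨2, Nat.prime_two, 2 ^ (a + 1 - i), ?_, ?_, ?_⟩
      · rw [hn, e1]; ring
      · exact Dvd.dvd.mul_right (dvd_pow_self _ (by omega)) _
      · exact dvd_pow_self _ (by omega)
  have hdisj : Disjoint S1 S2 := by
    rw [Finset.disjoint_left]
    intro d h1 h2
    rw [hS1, mem_image] at h1
    rw [hS2, mem_image] at h2
    obtain ⟨i, -, hi⟩ := h1
    obtain ⟨j, -, hj⟩ := h2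
    have h3 : 2 ^ i = 2 ^ j * r := by
      apply Nat.eq_of_mul_eq_mul_right hk0
      rw [hi, ← hj]; ring
    have h4 : r ∣ 2 ^ i := ⟨2 ^ j, by rw [h3]; ring⟩
    exact hr2 ((Nat.prime_dvd_prime_iff_eq hr Nat.prime_two).1 (hr.dvd_of_dvd_pow h4))
  have hsum : ∑ d ∈ S1 ∪ S2, d = (2 ^ (a + 1) - 2) * (r + 1) * k := by
    rw [sum_union hdisj, hS1, hS2, sum_image, sum_image, ← sum_mul, ← sum_mul]
    · have g2 := two_geom' a
      have g5 : (∑ i ∈ Ioo 0 (a + 1), 2 ^ i) = 2 ^ (a + 1) - 2 := by omega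
      rw [g5]; ring
    · intro i _ j _ hij
      have := Nat.eq_of_mul_eq_mul_right (Nat.mul_pos hr.pos hk0) hij
      exact Nat.pow_right_injective (le_refl 2) this
    · intro i _ j _ hij
      have := Nat.eq_of_mul_eq_mul_right hk0 hij
      exact Nat.pow_right_injective (le_refl 2) this
  have hxa : 2 ^ (a + 1) = 2 * 2 ^ a := by rw [pow_succ]; ring
  set y := 2 ^ a with hy
  have hy0 : 0 < y := pow_pos (by norm_num) a
  -- inequality
  have h := sum_le _ hsub
  rw [hE, hsum, hn, hxa] at h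
  have h1 : (2 * y - 2) * (r + 1) ≤ 2 * y * r := Nat.le_of_mul_le_mul_right h hk0
  obtain ⟨z, hz⟩ : ∃ z, y = z + 1 := ⟨y - 1, by omega⟩
  have hle : y ≤ r + 1 := by
    rw [hz] at h1 ⊢
    have e2 : 2 * (z + 1) - 2 = 2 * z := by omega
    rw [e2] at h1
    nlinarith
  have hne2 : y ≠ r + 1 := by
    intro heq
    rcases Nat.lt_or_ge 1 k with hk1 | hk1
    · -- 2 is an extra nonunitary divisor
      have ha0 : 0 < a := by
        rcases Nat.eq_zero_or_pos a with h0 | h0
        · subst h0; simp at hy; have := hr.pos; omega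
        · exact h0
      have h2 : 2 ∉ S1 ∪ S2 := by
        intro hmem
        rw [mem_union, hS1, hS2, mem_image, mem_image] at hmem
        have hk3 : ∀ t u : ℕ, 0 < t → 2 ^ t * (u * k) = 2 → False := by
          intro t u ht hh
          obtain ⟨s, rfl⟩ : ∃ s, t = s + 1 := ⟨t - 1, by omega⟩
          have h5 : 2 ^ s * u * k = 1 := by
            apply Nat.eq_of_mul_eq_mul_left (show 0 < 2 by norm_num)
            calc 2 * (2 ^ s * u * k) = 2 ^ (s + 1) * (u * k) := by rw [pow_succ]; ring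
              _ = 2 := hh
              _ = 2 * 1 := by norm_num
          have := Nat.eq_one_of_mul_eq_one_left h5
          omega
        rcases hmem with ⟨i, hi, he⟩ | ⟨i, hi, he⟩
        · rw [mem_Ioo] at hi; exact hk3 i 1 hi.1 (by rw [one_mul]; exact he)
        · rw [mem_Ioo] at hi; exact hk3 i r hi.1 he
      have h3 : insert 2 (S1 ∪ S2) ⊆ nd n := by
        intro d hd
        rw [mem_insert] at hd
        rcases hd with rfl | hd
        · rw [mem_nd hn0]
          refine ⟨2, Nat.prime_two, y * r * k, ?_, dvd_refl _, ?_⟩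
          · rw [hn, hxa]; ring
          · exact Dvd.dvd.mul_right (Dvd.dvd.mul_right (hy ▸ dvd_pow_self _ (by omega)) _) _
        · exact hsub hd
      have h4 := sum_le _ h3
      rw [hE, sum_insert h2, hsum, hn, hxa] at h4
      rw [heq] at h4
      have e2 : 2 * (r + 1) - 2 = 2 * r := by omega
      rw [e2] at h4
      nlinarith
    · have hk1' : k = 1 := by omega
      apply hne
      refine ⟨a, ?_, ?_⟩
      · rw [← hy, heq]; simpa using hr
      · rw [hn, hk1', ← hy, heq]; simp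
  have h7 : y ≤ r := by omega
  rcases Nat.lt_or_ge y r with h8 | h8
  · exact h8
  · exfalso
    have h9 : y = r := by omega
    rcases Nat.eq_zero_or_pos a with h0 | h0
    · subst h0; simp at hy; have := hr.two_le; omega
    · apply hrodd; rw [← h9, hy]; exact dvd_pow_self _ (by omega)


theorem N_mul {q m : ℕ} (hq : q.Prime) (hqm : ¬ q ∣ m) (hm : 0 < m) :
    ∑ d ∈ nd (q * m), d = (q + 1) * ∑ d ∈ nd m, d := by
  have hn : 0 < q * m := Nat.mul_pos hq.pos hm
  have key : nd (q * m) = nd m ∪ (nd m).image (fun d => q * d) := by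
    ext d
    rw [mem_nd hn, mem_union, mem_image]
    constructor
    · rintro ⟨l, hl, e, he, h1, h2⟩
      have hlq : l ≠ q := by
        rintro rfl
        have h3 : l * l ∣ l * m := by rw [he]; exact mul_dvd_mul h1 h2
        exact hqm (Nat.dvd_of_mul_dvd_mul_left hq.pos h3)
      have hqd : q ∣ d * e := ⟨m, he.symm⟩
      rcases (Nat.Prime.dvd_mul hq).1 hqd with h | h
      · right
        obtain ⟨d', rfl⟩ := h
        refine ⟨d', ?_, rfl⟩
        rw [mem_nd hm]
        refine ⟨l, hl, e, ?_, ?_, h2⟩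
        · apply Nat.eq_of_mul_eq_mul_left hq.pos; rw [he]; ring
        · rcases (Nat.Prime.dvd_mul hl).1 h1 with h3 | h3
          · exact absurd ((Nat.prime_dvd_prime_iff_eq hl hq).1 h3) hlq
          · exact h3
      · left
        obtain ⟨e', rfl⟩ := h
        rw [mem_nd hm]
        refine ⟨l, hl, e', ?_, h1, ?_⟩
        · apply Nat.eq_of_mul_eq_mul_left hq.pos; rw [he]; ring
        · rcases (Nat.Prime.dvd_mul hl).1 h2 with h3 | h3
          · exact absurd ((Nat.prime_dvd_prime_iff_eq hl hq).1 h3) hlq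
          · exact h3
    · rintro (h | ⟨d', h, rfl⟩)
      · rw [mem_nd hm] at h
        obtain ⟨l, hl, e, he, h1, h2⟩ := h
        exact ⟨l, hl, q * e, by rw [he]; ring, h1, Dvd.dvd.mul_left h2 _⟩
      · rw [mem_nd hm] at h
        obtain ⟨l, hl, e, he, h1, h2⟩ := h
        exact ⟨l, hl, e, by rw [he]; ring, Dvd.dvd.mul_left h1 _, h2⟩
  have hdisj : Disjoint (nd m) ((nd m).image (fun d => q * d)) := by
    rw [Finset.disjoint_left]
    intro d h1 h2
    rw [mem_image] at h2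
    obtain ⟨d', -, rfl⟩ := h2
    rw [mem_nd hm] at h1
    obtain ⟨l, hl, e, he, -, -⟩ := h1
    exact hqm ⟨d' * e, by rw [he]; ring⟩
  rw [key, sum_union hdisj, sum_image, ← mul_sum]
  · ring
  · intro i _ j _ hij
    exact Nat.eq_of_mul_eq_mul_left hq.pos hij

theorem partD (T : Finset ℕ) : ∀ n : ℕ, 0 < n →
    (∀ q ∈ T, q.Prime ∧ q ≠ 2 ∧ q ∣ n ∧ ¬ q ^ 2 ∣ n) → 2 ^ T.card ∣ ∑ d ∈ nd n, d := by
  induction T using Finset.induction_on with
  | empty => intro n _ _; simp
  | insert q T hqT ih =>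
    intro n hn h
    obtain ⟨hq, hq2, ⟨m, hm⟩, hqn⟩ := h q (mem_insert_self _ _)
    have hm0 : 0 < m := by
      rcases Nat.eq_zero_or_pos m with h0 | h0
      · subst h0; omega
      · exact h0
    have hqm : ¬ q ∣ m := by
      rintro ⟨t, rfl⟩
      exact hqn ⟨t, by rw [hm]; ring⟩
    have h1 : 2 ^ T.card ∣ ∑ d ∈ nd m, d := by
      apply ih m hm0
      intro r hr
      obtain ⟨h1, h2, h3, h4⟩ := h r (mem_insert_of_mem hr)
      refine ⟨h1, h2, ?_, ?_⟩
      · rw [hm] at h3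
        rcases (Nat.Prime.dvd_mul h1).1 h3 with h5 | h5
        · exact absurd (((Nat.prime_dvd_prime_iff_eq h1 hq).1 h5) ▸ hr) hqT
        · exact h5
      · intro h5; exact h4 (by rw [hm]; exact Dvd.dvd.mul_left h5 _)
    rw [card_insert_of_notMem hqT, hm, N_mul hq hqm hm0, pow_succ, mul_comm]
    apply mul_dvd_mul _ h1
    have : q % 2 = 1 := by
      rcases hq.eq_two_or_odd with h5 | h5
      · exact absurd h5 hq2
      · exact h5
    omega

theorem partC {n : ℕ} (hn : 0 < n) (ho : ¬ 2 ∣ n) (hE : ∑ d ∈ nd n, d = n) : IsSquare n := by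
  by_contra hs
  have h1 : ∑ d ∈ nd n, (d : ZMod 2) = 0 := by
    apply Finset.sum_involution (fun d _ => n / d)
    · intro d hd
      rw [mem_nd hn] at hd
      obtain ⟨l, hl, e, he, h1, h2⟩ := hd
      have hd0 : 0 < d := by
        rcases Nat.eq_zero_or_pos d with h | h
        · subst h; simp at he; omega
        · exact h
      have : n / d = e := by rw [he]; exact Nat.mul_div_cancel_left _ hd0
      rw [this]
      have hdo : d % 2 = 1 := by
        by_contra hc
        exact ho (dvd_trans (Nat.dvd_of_mod_eq_zero (by omega)) ⟨e, he⟩)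
      have heo : e % 2 = 1 := by
        by_contra hc
        exact ho (dvd_trans (Nat.dvd_of_mod_eq_zero (show e % 2 = 0 by omega)) ⟨d, by rw [he]; ring⟩)
      rw [← Nat.cast_add, ZMod.natCast_eq_zero_iff]
      omega
    · intro d hd _ heq
      rw [mem_nd hn] at hd
      obtain ⟨l, hl, e, he, h1, h2⟩ := hd
      have hd0 : 0 < d := by
        rcases Nat.eq_zero_or_pos d with h | h
        · subst h; simp at he; omega
        · exact h
      have : n / d = e := by rw [he]; exact Nat.mul_div_cancel_left _ hd0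
      rw [this] at heq
      subst heq
      exact hs ⟨e, he⟩
    · intro d hd
      rw [mem_nd hn] at hd ⊢
      obtain ⟨l, hl, e, he, h1, h2⟩ := hd
      have hd0 : 0 < d := by
        rcases Nat.eq_zero_or_pos d with h | h
        · subst h; simp at he; omega
        · exact h
      have : n / d = e := by rw [he]; exact Nat.mul_div_cancel_left _ hd0
      rw [this]
      exact ⟨l, hl, d, by rw [he]; ring, h2, h1⟩
    · intro d hd
      have hd' := hd
      rw [mem_nd hn] at hd'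
      obtain ⟨l, hl, e, he, h1, h2⟩ := hd'
      exact Nat.div_div_self ⟨e, he⟩ hn.ne'
  have h2 : ((n : ℕ) : ZMod 2) = 0 := by
    rw [← hE, Nat.cast_sum]; exact h1
  rw [ZMod.natCast_eq_zero_iff] at h2
  exact ho h2



/-- the sum over nonunitary divisors, squarefree coprime part split off -/
theorem N_prod (T : Finset ℕ) : ∀ m : ℕ, 0 < m → (∀ r ∈ T, r.Prime ∧ ¬ r ∣ m) →
    ∑ d ∈ nd (m * ∏ r ∈ T, r), d = (∏ r ∈ T, (r + 1)) * ∑ d ∈ nd m, d := by
  induction T using Finset.induction_on with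
  | empty => intro m _ _; simp
  | insert q T hqT ih =>
    intro m hm h
    obtain ⟨hq, hqm⟩ := h q (mem_insert_self _ _)
    have hpos : 0 < ∏ r ∈ T, r := prod_pos fun r hr => (h r (mem_insert_of_mem hr)).1.pos
    rw [prod_insert hqT, prod_insert hqT]
    have e1 : m * (q * ∏ r ∈ T, r) = q * (m * ∏ r ∈ T, r) := by ring
    rw [e1, N_mul hq _ (Nat.mul_pos hm hpos), ih m hm (fun r hr => h r (mem_insert_of_mem hr))]
    · ring
    · intro hd
      rcases (Nat.Prime.dvd_mul hq).1 hd with h1 | h1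
      · exact hqm h1
      · obtain ⟨r, hr, hqr⟩ := (Prime.dvd_finsetProd_iff hq.prime _).1 h1
        have := (Nat.prime_dvd_prime_iff_eq hq (h r (mem_insert_of_mem hr)).1).1 hqr
        exact hqT (this ▸ hr)

/-- nonunitary divisors of `2^a q^2` -/
theorem N_two_sq {a q : ℕ} (hq : q.Prime) (hq2 : q ≠ 2) :
    ∑ d ∈ nd (2 ^ (a + 1) * q ^ 2), d =
      (2 ^ (a + 1) - 2) * q ^ 2 + (2 * 2 ^ (a + 1) - 1) * q + (2 ^ (a + 1) - 2) := by
  have hn : 0 < 2 ^ (a + 1) * q ^ 2 := Nat.mul_pos (pow_pos (by norm_num) _) (pow_pos hq.pos _)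
  have h2q : ¬ 2 ∣ q := fun h => hq2 ((Nat.prime_dvd_prime_iff_eq Nat.prime_two hq).1 h).symm
  have hqn2 : ∀ i, ¬ q ∣ 2 ^ i := fun i h =>
    hq2 ((Nat.prime_dvd_prime_iff_eq hq Nat.prime_two).1 (hq.dvd_of_dvd_pow h))
  set S0 := (Ioo 0 (a + 1)).image (fun i => 2 ^ i * 1) with hS0
  set S1 := (range (a + 2)).image (fun i => 2 ^ i * q) with hS1
  set S2 := (Ioo 0 (a + 1)).image (fun i => 2 ^ i * q ^ 2) with hS2
  have key : nd (2 ^ (a + 1) * q ^ 2) = S2 ∪ (S1 ∪ S0) := by
    ext d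
    rw [mem_nd hn, mem_union, mem_union, hS0, hS1, hS2, mem_image, mem_image, mem_image]
    constructor
    · rintro ⟨l, hl, e, he, h1, h2⟩
      have hd : d ∣ 2 ^ (a + 1) * q ^ 2 := ⟨e, he⟩
      obtain ⟨k1, k2, hk1, hk2, hk⟩ := (Nat.dvd_mul).1 hd
      obtain ⟨i, hi, rfl⟩ := (Nat.dvd_prime_pow Nat.prime_two).1 hk1
      obtain ⟨j, hj, rfl⟩ := (Nat.dvd_prime_pow hq).1 hk2
      have hee : e = 2 ^ (a + 1 - i) * q ^ (2 - j) := by
        have e1 : 2 ^ (a + 1) = 2 ^ i * 2 ^ (a + 1 - i) := by rw [← pow_add]; congr 1; omega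
        have e2 : q ^ 2 = q ^ j * q ^ (2 - j) := by rw [← pow_add]; congr 1; omega
        have h5 : (2 ^ i * q ^ j) * e = (2 ^ i * q ^ j) * (2 ^ (a + 1 - i) * q ^ (2 - j)) := by
          rw [hk, ← he, e1, e2, ← hk]; ring
        exact Nat.eq_of_mul_eq_mul_left
          (Nat.mul_pos (pow_pos (by norm_num) _) (pow_pos hq.pos _)) h5
      have hl2 : ∀ s : ℕ, l ∣ 2 ^ s → l = 2 ∧ 0 < s := by
        intro s hs
        refine ⟨(Nat.prime_dvd_prime_iff_eq hl Nat.prime_two).1 (hl.dvd_of_dvd_pow hs), ?_⟩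
        rcases Nat.eq_zero_or_pos s with h0 | h0
        · subst h0; rw [pow_zero] at hs; exact absurd (Nat.dvd_one.1 hs) hl.one_lt.ne'
        · exact h0
      interval_cases j
      · right; right
        rw [pow_zero, mul_one] at hk
        rw [← hk] at h1
        obtain ⟨hl', hi0⟩ := hl2 i h1
        rw [hee, hl'] at h2
        have hia : i < a + 1 := by
          by_contra hc
          have : a + 1 - i = 0 := by omega
          rw [this, pow_zero, one_mul] at h2
          exact h2q (Nat.prime_two.dvd_of_dvd_pow h2)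
        exact ⟨i, mem_Ioo.2 ⟨hi0, hia⟩, by rw [mul_one]; exact hk⟩
      · right; left
        exact ⟨i, mem_range.2 (by omega), by rw [pow_one] at hk; exact hk⟩
      · left
        rw [hee] at h2
        simp only [Nat.sub_self, pow_zero, mul_one] at h2
        obtain ⟨hl', hi0⟩ := hl2 _ h2
        rw [hl', ← hk] at h1
        have hi1 : 0 < i := by
          rcases Nat.eq_zero_or_pos i with h0 | h0
          · subst h0
            rw [pow_zero, one_mul] at h1
            exact absurd (Nat.prime_two.dvd_of_dvd_pow h1) h2q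
          · exact h0
        exact ⟨i, mem_Ioo.2 ⟨hi1, by omega⟩, hk⟩
    · rintro (⟨i, hi, rfl⟩ | ⟨i, hi, rfl⟩ | ⟨i, hi, rfl⟩)
      · rw [mem_Ioo] at hi
        have e1 : 2 ^ (a + 1) = 2 ^ i * 2 ^ (a + 1 - i) := by rw [← pow_add]; congr 1; omega
        refine ⟨2, Nat.prime_two, 2 ^ (a + 1 - i), by rw [e1]; ring, ?_, dvd_pow_self _ (by omega)⟩
        exact Dvd.dvd.mul_right (dvd_pow_self _ (by omega)) _
      · rw [mem_range] at hi
        have e1 : 2 ^ (a + 1) = 2 ^ i * 2 ^ (a + 1 - i) := by rw [← pow_add]; congr 1; omega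
        exact ⟨q, hq, 2 ^ (a + 1 - i) * q, by rw [e1]; ring, Dvd.intro_left _ rfl,
          Dvd.intro_left _ rfl⟩
      · rw [mem_Ioo] at hi
        have e1 : 2 ^ (a + 1) = 2 ^ i * 2 ^ (a + 1 - i) := by rw [← pow_add]; congr 1; omega
        refine ⟨2, Nat.prime_two, 2 ^ (a + 1 - i) * q ^ 2, by rw [e1]; ring, ?_, ?_⟩
        · exact Dvd.dvd.mul_right (dvd_pow_self _ (by omega)) _
        · exact Dvd.dvd.mul_right (dvd_pow_self _ (by omega)) _
  have hd1 : Disjoint S1 S0 := by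
    rw [Finset.disjoint_left]
    intro d h1 h2
    rw [hS1, mem_image] at h1
    rw [hS0, mem_image] at h2
    obtain ⟨i, -, hi⟩ := h1
    obtain ⟨j, -, hj⟩ := h2
    exact hqn2 j ⟨2 ^ i, by rw [mul_one] at hj; rw [hj, ← hi]; ring⟩
  have hd2 : Disjoint S2 (S1 ∪ S0) := by
    rw [Finset.disjoint_left]
    intro d h1 h2
    rw [hS2, mem_image] at h1
    obtain ⟨i, -, hi⟩ := h1
    rw [mem_union, hS1, hS0, mem_image, mem_image] at h2
    rcases h2 with ⟨j, -, hj⟩ | ⟨j, -, hj⟩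
    · apply hqn2 j
      refine ⟨2 ^ i, ?_⟩
      apply Nat.eq_of_mul_eq_mul_right hq.pos
      rw [hj, ← hi]; ring
    · exact hqn2 j ⟨2 ^ i * q, by rw [mul_one] at hj; rw [hj, ← hi]; ring⟩
  have hinj : ∀ (c : ℕ), 0 < c → ∀ (U : Finset ℕ), Set.InjOn (fun i => 2 ^ i * c) (U : Set ℕ) := by
    intro c hc U i _ j _ hij
    have := Nat.eq_of_mul_eq_mul_right hc hij
    exact Nat.pow_right_injective (le_refl 2) this
  rw [key, sum_union hd2, sum_union hd1, hS0, hS1, hS2,
    sum_image (hinj _ (pow_pos hq.pos _) _), sum_image (hinj _ hq.pos _),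
    sum_image (hinj 1 one_pos _), ← sum_mul, ← sum_mul, ← sum_mul]
  have g1 := two_geom (a + 2)
  have g2 := two_geom' a
  have g3 : 2 ^ (a + 2) = 2 * 2 ^ (a + 1) := by rw [pow_succ 2 (a + 1)]; ring
  have g4 : (∑ i ∈ range (a + 2), 2 ^ i) = 2 * 2 ^ (a + 1) - 1 := by omega
  have g5 : (∑ i ∈ Ioo 0 (a + 1), 2 ^ i) = 2 ^ (a + 1) - 2 := by omega
  rw [g4, g5]; ring


/-- possible shapes of `x q^2 ∏ r / (r + 1)` -/
def Ty (a q P : ℕ) : Prop :=
  (∃ e s t u v A B : ℕ, e + s + t = a ∧ P = 2 ^ e * (A * B) ∧ A.Prime ∧ B.Prime ∧ A ≠ 2 ∧ B ≠ 2 ∧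
    A + u = 2 ^ s * q ∧ B + v = 2 ^ t * q ∧ u < 2 ^ s ∧ v < 2 ^ t) ∨
  (∃ e s t w u v z A B C : ℕ, e + s + t + w = a ∧ P = 2 ^ e * C ∧ C.Prime ∧ C ≠ 2 ∧
    C + z = 2 ^ w * (A * B) ∧ A + u = 2 ^ s * q ∧ B + v = 2 ^ t * q ∧ u < 2 ^ s ∧ v < 2 ^ t ∧
    z < 2 ^ w ∧ 0 < z ∧ 0 < w) ∨
  (P = q ^ 2 * (2 ^ a - 1) ∧ 1 < a)

theorem two_pow_bound {i u : ℕ} {s : ℕ} (hi : 0 < i) (hu : u < 2 ^ s) :
    2 ^ i * u + 1 < 2 ^ (i + s) := by
  have h1 : 2 ≤ 2 ^ i := by
    calc 2 = 2 ^ 1 := by norm_num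
      _ ≤ 2 ^ i := Nat.pow_le_pow_right (by norm_num) hi
  have h2 : 2 ^ i * (u + 1) ≤ 2 ^ i * 2 ^ s := Nat.mul_le_mul_left _ (by omega)
  rw [pow_add]
  have : 2 ^ i * (u + 1) = 2 ^ i * u + 2 ^ i := by ring
  omega

theorem step {a q p P' P : ℕ} (hq : q.Prime) (hq2 : q ≠ 2) (hp : p.Prime) (hp2 : p ≠ 2)
    (ha : 0 < a) (hpa : 2 ^ (a - 1) < p) (hT : Ty a q P') (hd : (p + 1) * P = P' * p) :
    Ty a q P := by
  have hcop : (p + 1).Coprime p := by simp
  have hdvd : (p + 1) ∣ P' := by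
    have : (p + 1) ∣ P' * p := ⟨P, hd.symm⟩
    exact hcop.dvd_of_dvd_mul_right this
  have hp1 : 0 < p + 1 := by omega
  have hpodd : p % 2 = 1 := hp.eq_two_or_odd.resolve_left hp2
  have h2a : ∀ i, i ≤ a → p + 1 = 2 ^ i → i = a := by
    intro i hi he
    by_contra hc
    have : 2 ^ i ≤ 2 ^ (a - 1) := Nat.pow_le_pow_right (by norm_num) (by omega)
    omega
  have hmod : ∀ i c : ℕ, c % 2 = 1 → p + 1 = 2 ^ i * c → 0 < i := by
    intro i c hc he
    rcases Nat.eq_zero_or_pos i with h0 | h0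
    · subst h0; rw [pow_zero, one_mul] at he; omega
    · exact h0
  rcases hT with ⟨e, s, t, u, v, A, B, hest, hP, hA, hB, hA2, hB2, hAu, hBv, hus, hvt⟩ |
    ⟨e, s, t, w, u, v, z, A, B, C, hest, hP, hC, hC2, hCz, hAu, hBv, hus, hvt, hzw, hz0, hw0⟩ |
    ⟨hP, ha1⟩
  · have hAo : A % 2 = 1 := hA.eq_two_or_odd.resolve_left hA2
    have hBo : B % 2 = 1 := hB.eq_two_or_odd.resolve_left hB2
    rw [hP] at hdvd
    obtain ⟨k1, k2, hk1, hk2, hk⟩ := (Nat.dvd_mul).1 hdvd
    obtain ⟨i, hi, rfl⟩ := (Nat.dvd_prime_pow Nat.prime_two).1 hk1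
    obtain ⟨c1, c2, hc1, hc2, hc⟩ := (Nat.dvd_mul).1 hk2
    have e1 : 2 ^ e = 2 ^ i * 2 ^ (e - i) := by rw [← pow_add]; congr 1; omega
    rcases (Nat.dvd_prime hA).1 hc1 with rfl | rfl
    · rcases (Nat.dvd_prime hB).1 hc2 with rfl | rfl
      · -- power of two
        have hk' : p + 1 = 2 ^ i := by rw [← hk, ← hc]; ring
        have hia := h2a i (by omega) hk'
        have he : e = a := by omega
        have hs0 : s = 0 := by omega
        have ht0 : t = 0 := by omega
        subst hs0; subst ht0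
        rw [pow_zero] at hus hvt
        have hu0 : u = 0 := by omega
        have hv0 : v = 0 := by omega
        subst hu0; subst hv0
        right; right
        rw [hia] at hk'
        have hAq : A = q := by simpa using hAu
        have hBq : B = q := by simpa using hBv
        refine ⟨?_, ?_⟩
        · apply Nat.eq_of_mul_eq_mul_left hp1
          rw [hd, hP, he, ← hk', hAq, hBq, Nat.add_sub_cancel]; ring
        · by_contra hc'
          have : a = 1 := by omega
          subst this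
          have := hp.two_le
          omega
      · -- c2 = B
        have hk' : p + 1 = 2 ^ i * c2 := by rw [← hk, ← hc]; ring
        have hi0 := hmod i _ hBo hk'
        left
        refine ⟨e - i, s, i + t, u, 2 ^ i * v + 1, A, p, by omega, ?_, hA, hp, hA2, hp2, hAu, ?_,
          hus, two_pow_bound hi0 hvt⟩
        · apply Nat.eq_of_mul_eq_mul_left hp1
          rw [hd, hP, hk', e1]; ring
        · have : p + (2 ^ i * v + 1) = (p + 1) + 2 ^ i * v := by ring
          rw [this, hk', pow_add, mul_assoc, ← hBv]; ring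
    · rcases (Nat.dvd_prime hB).1 hc2 with rfl | rfl
      · have hk' : p + 1 = 2 ^ i * c1 := by rw [← hk, ← hc]; ring
        have hi0 := hmod i _ hAo hk'
        left
        refine ⟨e - i, i + s, t, 2 ^ i * u + 1, v, p, B, by omega, ?_, hp, hB, hp2, hB2, ?_, hBv,
          two_pow_bound hi0 hus, hvt⟩
        · apply Nat.eq_of_mul_eq_mul_left hp1
          rw [hd, hP, hk', e1]; ring
        · have : p + (2 ^ i * u + 1) = (p + 1) + 2 ^ i * u := by ring
          rw [this, hk', pow_add, mul_assoc, ← hAu]; ring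
      · have hk' : p + 1 = 2 ^ i * (c1 * c2) := by rw [← hk, ← hc]
        have hi0 := hmod i (c1 * c2) (by rw [Nat.mul_mod, hAo, hBo]) hk'
        right; left
        refine ⟨e - i, s, t, i, u, v, 1, c1, c2, p, by omega, ?_, hp, hp2, hk', hAu, hBv, hus, hvt,
          ?_, one_pos, hi0⟩
        · apply Nat.eq_of_mul_eq_mul_left hp1
          rw [hd, hP, hk', e1]; ring
        · exact Nat.one_lt_two_pow hi0.ne'
  · have hCo : C % 2 = 1 := hC.eq_two_or_odd.resolve_left hC2
    rw [hP] at hdvd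
    obtain ⟨k1, k2, hk1, hk2, hk⟩ := (Nat.dvd_mul).1 hdvd
    obtain ⟨i, hi, rfl⟩ := (Nat.dvd_prime_pow Nat.prime_two).1 hk1
    have e1 : 2 ^ e = 2 ^ i * 2 ^ (e - i) := by rw [← pow_add]; congr 1; omega
    rcases (Nat.dvd_prime hC).1 hk2 with rfl | rfl
    · exfalso
      have := h2a i (by omega) (by rw [← hk]; ring)
      omega
    · have hi0 := hmod i _ hCo hk.symm
      right; left
      refine ⟨e - i, s, t, i + w, u, v, 2 ^ i * z + 1, A, B, p, by omega, ?_, hp, hp2, ?_, hAu, hBv,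
        hus, hvt, two_pow_bound hi0 hzw, by omega, by omega⟩
      · apply Nat.eq_of_mul_eq_mul_left hp1
        rw [hd, hP, ← hk, e1]; ring
      · have : p + (2 ^ i * z + 1) = (p + 1) + 2 ^ i * z := by ring
        rw [this, ← hk, pow_add, mul_assoc, ← hCz]; ring
  · exfalso
    have h2 : 2 ∣ p + 1 := by omega
    have h3 : 2 ∣ q ^ 2 * (2 ^ a - 1) := hP ▸ dvd_trans h2 hdvd
    rcases (Nat.Prime.dvd_mul Nat.prime_two).1 h3 with h4 | h4
    · exact hq2 ((Nat.prime_dvd_prime_iff_eq Nat.prime_two hq).1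
        (Nat.prime_two.dvd_of_dvd_pow h4)).symm
    · have h5 : 2 ∣ 2 ^ a := dvd_pow_self _ (by omega)
      have := pow_pos (show 0 < 2 by norm_num) a
      omega

theorem shape {a q : ℕ} (hq : q.Prime) (hq2 : q ≠ 2) (ha : 0 < a) (T : Finset ℕ) :
    ∀ P : ℕ, (∀ r ∈ T, r.Prime ∧ r ≠ 2 ∧ 2 ^ (a - 1) < r) →
      (∏ r ∈ T, (r + 1)) * P = 2 ^ a * q ^ 2 * ∏ r ∈ T, r → Ty a q P := by
  induction T using Finset.induction_on_max with
  | empty =>
    intro P _ h
    left
    refine ⟨a, 0, 0, 0, 0, q, q, by simp, ?_, hq, hq, hq2, hq2, by simp, by simp, by simp, by simp⟩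
    simp only [prod_empty, one_mul, mul_one] at h
    rw [h, pow_two]
  | insert p T hmax ih =>
    intro P h hE
    have hpT : p ∉ T := fun hc => lt_irrefl _ (hmax p hc)
    obtain ⟨hp, hp2, hpa⟩ := h p (mem_insert_self _ _)
    rw [prod_insert hpT, prod_insert hpT] at hE
    have hpodd : p % 2 = 1 := hp.eq_two_or_odd.resolve_left hp2
    -- p divides P
    have hpP : p ∣ P := by
      have h1 : p ∣ (p + 1) * (∏ r ∈ T, (r + 1)) * P := by
        rw [hE]; exact ⟨2 ^ a * q ^ 2 * ∏ r ∈ T, r, by ring⟩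
      rcases (Nat.Prime.dvd_mul hp).1 h1 with h2 | h2
      · exfalso
        rcases (Nat.Prime.dvd_mul hp).1 h2 with h3 | h3
        · have : p ∣ 1 := (Nat.dvd_add_right (dvd_refl p)).1 h3
          exact hp.one_lt.ne' (Nat.dvd_one.1 this)
        · obtain ⟨r, hr, hpr⟩ := (Prime.dvd_finsetProd_iff hp.prime _).1 h3
          have hlt := hmax r hr
          obtain ⟨hr1, hr2, -⟩ := h r (mem_insert_of_mem hr)
          have hrodd : r % 2 = 1 := hr1.eq_two_or_odd.resolve_left hr2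
          have := Nat.le_of_dvd (by omega) hpr
          omega
      · exact h2
    obtain ⟨P1, rfl⟩ := hpP
    have hT : Ty a q (P1 * (p + 1)) := by
      apply ih (P1 * (p + 1)) (fun r hr => h r (mem_insert_of_mem hr))
      apply Nat.eq_of_mul_eq_mul_left hp.pos
      calc p * ((∏ r ∈ T, (r + 1)) * (P1 * (p + 1)))
          = (p + 1) * (∏ r ∈ T, (r + 1)) * (p * P1) := by ring
        _ = _ := hE
        _ = _ := by ring
    exact step hq hq2 hp hp2 ha hpa hT (by ring)

theorem small_mul {q : ℤ} {L K : ℤ} (hq : 0 < q) (h : L = q * K) (h1 : -q < L) (h2 : L < q) :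
    L = 0 ∧ K = 0 := by
  have hK : K = 0 := by
    by_contra hK
    rcases lt_or_gt_of_ne hK with h3 | h3
    · have : q * K ≤ q * (-1) := mul_le_mul_of_nonneg_left (by omega) hq.le
      linarith
    · have : q * 1 ≤ q * K := mul_le_mul_of_nonneg_left (by omega) hq.le
      linarith
  exact ⟨by rw [h, hK, mul_zero], hK⟩

/-- the arithmetic: no shape equals the required number -/
theorem noTy {a q P : ℕ} (hq : q.Prime) (hq2 : q ≠ 2) (ha : 2 ≤ a) (hqa : 2 ^ a < q)
    (hP : (P : ℤ) = ((2 : ℤ) ^ a - 2) * (q : ℤ) ^ 2 + (2 * 2 ^ a - 1) * q + (2 ^ a - 2)) :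
    ¬ Ty a q P := by
  have hqodd : q % 2 = 1 := hq.eq_two_or_odd.resolve_left hq2
  obtain ⟨y, hy⟩ : ∃ y, 2 ^ a = 4 * y := by
    refine ⟨2 ^ (a - 2), ?_⟩
    have : a = (a - 2) + 2 := by omega
    conv_lhs => rw [this, pow_add]
    ring
  have hy0 : 0 < y := by
    have := pow_pos (show 0 < 2 by norm_num) a
    omega
  have hX : ((2 : ℤ) ^ a) = 4 * y := by exact_mod_cast hy
  have hqX : (4 * y : ℤ) < q := by rw [← hX]; exact_mod_cast hqa
  have hq0 : (0 : ℤ) < q := by exact_mod_cast hq.pos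
  have hy0' : (0 : ℤ) < y := by exact_mod_cast hy0
  rintro (⟨e, s, t, u, v, A, B, hest, hPP, hA, hB, hA2, hB2, hAu, hBv, hus, hvt⟩ |
    ⟨e, s, t, w, u, v, z, A, B, C, hest, hPP, hC, hC2, hCz, hAu, hBv, hus, hvt, hzw, hz0, hw0⟩ |
    ⟨hPP, ha1⟩)
  · have hXX : (2 : ℤ) ^ e * 2 ^ s * 2 ^ t = 4 * y := by
      rw [← hX, ← hest, pow_add, pow_add]
    have hPz : (P : ℤ) = 2 ^ e * (A * B) := by exact_mod_cast hPP
    have hAz : (A : ℤ) = 2 ^ s * q - u := by
      have : (A : ℤ) + u = 2 ^ s * q := by exact_mod_cast hAu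
      linarith
    have hBz : (B : ℤ) = 2 ^ t * q - v := by
      have : (B : ℤ) + v = 2 ^ t * q := by exact_mod_cast hBv
      linarith
    have husz : (u : ℤ) + 1 ≤ 2 ^ s := by exact_mod_cast hus
    have hvtz : (v : ℤ) + 1 ≤ 2 ^ t := by exact_mod_cast hvt
    have hE1 : (1 : ℤ) ≤ 2 ^ e := one_le_pow₀ (by norm_num)
    have hS1 : (1 : ℤ) ≤ 2 ^ s := one_le_pow₀ (by norm_num)
    have hT1 : (1 : ℤ) ≤ 2 ^ t := one_le_pow₀ (by norm_num)
    have hS2 : s ≠ 0 → (2 : ℤ) ≤ 2 ^ s := fun h => by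
      calc (2 : ℤ) = 2 ^ 1 := by norm_num
        _ ≤ 2 ^ s := pow_le_pow_right₀ (by norm_num) (by omega)
    have hT2 : t ≠ 0 → (2 : ℤ) ≤ 2 ^ t := fun h => by
      calc (2 : ℤ) = 2 ^ 1 := by norm_num
        _ ≤ 2 ^ t := pow_le_pow_right₀ (by norm_num) (by omega)
    have hs0 : s = 0 → (u : ℤ) = 0 := fun h => by
      subst h; rw [pow_zero] at hus; exact_mod_cast (by omega : u = 0)
    have ht0 : t = 0 → (v : ℤ) = 0 := fun h => by
      subst h; rw [pow_zero] at hvt; exact_mod_cast (by omega : v = 0)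
    generalize (2 : ℤ) ^ e = E at *
    generalize (2 : ℤ) ^ s = S at *
    generalize (2 : ℤ) ^ t = T at *
    have hu0 : (0 : ℤ) ≤ u := Int.natCast_nonneg u
    have hv0 : (0 : ℤ) ≤ v := Int.natCast_nonneg v
    generalize (u : ℤ) = U at *
    generalize (v : ℤ) = V at *
    rw [hPz, hAz, hBz, hX] at hP
    have hL : (4 * (y : ℤ) - 2) - E * U * V = q * (2 * q - (8 * y - 1) - E * (S * V + T * U)) := by
      linear_combination (-1 : ℤ) * hP + (q : ℤ) ^ 2 * hXX
    have hUV : E * U * V ≤ E * (S - 1) * (T - 1) := by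
      have h1 : U * V ≤ (S - 1) * (T - 1) :=
        mul_le_mul (by linarith) (by linarith) hv0 (by linarith)
      have h2 := mul_le_mul_of_nonneg_left h1 (by linarith : (0 : ℤ) ≤ E)
      calc E * U * V = E * (U * V) := by ring
        _ ≤ _ := h2
        _ = _ := by ring
    have hUV0 : 0 ≤ E * U * V := mul_nonneg (mul_nonneg (by linarith) hu0) hv0
    have hexp : E * (S - 1) * (T - 1) = 4 * y - E * (S + T - 1) := by
      linear_combination hXX
    have hST1 : 1 ≤ E * (S + T - 1) := by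
      have : 1 * 1 ≤ E * (S + T - 1) := mul_le_mul hE1 (by linarith) (by norm_num) (by linarith)
      linarith
    obtain ⟨h1, -⟩ := small_mul hq0 hL (by linarith) (by linarith)
    by_cases hs : s = 0
    · rw [hs0 hs] at h1; simp at h1; omega
    by_cases ht : t = 0
    · rw [ht0 ht] at h1; simp at h1; omega
    have h3 : 1 * 3 ≤ E * (S + T - 1) :=
      mul_le_mul hE1 (by linarith [hS2 hs, hT2 ht]) (by norm_num) (by linarith)
    linarith
  · have hXX : (2 : ℤ) ^ e * 2 ^ s * 2 ^ t * 2 ^ w = 4 * y := by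
      rw [← hX, ← hest, pow_add, pow_add, pow_add]
    have hPz : (P : ℤ) = 2 ^ e * C := by exact_mod_cast hPP
    have hCzz : (C : ℤ) = 2 ^ w * (A * B) - z := by
      have : (C : ℤ) + z = 2 ^ w * (A * B) := by exact_mod_cast hCz
      linarith
    have hAz : (A : ℤ) = 2 ^ s * q - u := by
      have : (A : ℤ) + u = 2 ^ s * q := by exact_mod_cast hAu
      linarith
    have hBz : (B : ℤ) = 2 ^ t * q - v := by
      have : (B : ℤ) + v = 2 ^ t * q := by exact_mod_cast hBv
      linarith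
    have husz : (u : ℤ) + 1 ≤ 2 ^ s := by exact_mod_cast hus
    have hvtz : (v : ℤ) + 1 ≤ 2 ^ t := by exact_mod_cast hvt
    have hzwz : (z : ℤ) + 1 ≤ 2 ^ w := by exact_mod_cast hzw
    have hz0z : (1 : ℤ) ≤ z := by exact_mod_cast hz0
    have hE1 : (1 : ℤ) ≤ 2 ^ e := one_le_pow₀ (by norm_num)
    have hS1 : (1 : ℤ) ≤ 2 ^ s := one_le_pow₀ (by norm_num)
    have hT1 : (1 : ℤ) ≤ 2 ^ t := one_le_pow₀ (by norm_num)
    have hW1 : (2 : ℤ) ≤ 2 ^ w := by
      calc (2 : ℤ) = 2 ^ 1 := by norm_num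
        _ ≤ 2 ^ w := pow_le_pow_right₀ (by norm_num) hw0
    have hs0 : s = 0 → (u : ℤ) = 0 := fun h => by
      subst h; rw [pow_zero] at hus; exact_mod_cast (by omega : u = 0)
    have ht0 : t = 0 → (v : ℤ) = 0 := fun h => by
      subst h; rw [pow_zero] at hvt; exact_mod_cast (by omega : v = 0)
    have hS2 : s ≠ 0 → (2 : ℤ) ≤ 2 ^ s := fun h => by
      calc (2 : ℤ) = 2 ^ 1 := by norm_num
        _ ≤ 2 ^ s := pow_le_pow_right₀ (by norm_num) (by omega)
    have hT2 : t ≠ 0 → (2 : ℤ) ≤ 2 ^ t := fun h => by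
      calc (2 : ℤ) = 2 ^ 1 := by norm_num
        _ ≤ 2 ^ t := pow_le_pow_right₀ (by norm_num) (by omega)
    have hW4 : w ≠ 1 → ∃ c : ℤ, (2 : ℤ) ^ w = 4 * c := fun h => by
      refine ⟨2 ^ (w - 2), ?_⟩
      have : w = (w - 2) + 2 := by omega
      conv_lhs => rw [this, pow_add]
      ring
    have hW2 : w = 1 → (2 : ℤ) ^ w = 2 := fun h => by rw [h]; norm_num
    have hE2 : e ≠ 0 → ∃ c : ℤ, (2 : ℤ) ^ e = 2 * c := fun h => by
      refine ⟨2 ^ (e - 1), ?_⟩
      have : e = (e - 1) + 1 := by omega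
      conv_lhs => rw [this, pow_succ]
      ring
    have hE0 : e = 0 → (2 : ℤ) ^ e = 1 := fun h => by rw [h]; norm_num
    generalize (2 : ℤ) ^ e = E at *
    generalize (2 : ℤ) ^ s = S at *
    generalize (2 : ℤ) ^ t = T at *
    generalize (2 : ℤ) ^ w = W at *
    have hu0 : (0 : ℤ) ≤ u := Int.natCast_nonneg u
    have hv0 : (0 : ℤ) ≤ v := Int.natCast_nonneg v
    generalize (u : ℤ) = U at *
    generalize (v : ℤ) = V at *
    rw [hPz, hCzz, hAz, hBz, hX] at hP
    have hL : (4 * (y : ℤ) - 2) - E * W * (U * V) + E * z =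
        q * (2 * q - (8 * y - 1) - E * W * (S * V + T * U)) := by
      linear_combination (-1 : ℤ) * hP + (q : ℤ) ^ 2 * hXX
    have hEz : E * z + E ≤ E * W := by
      have := mul_le_mul_of_nonneg_left hzwz (by linarith : (0 : ℤ) ≤ E)
      linarith
    have hEz0 : 0 ≤ E * z := mul_nonneg (by linarith) (by linarith)
    have hEz1 : 1 ≤ E * z := by
      have : 1 * 1 ≤ E * z := mul_le_mul hE1 hz0z (by norm_num) (by linarith)
      linarith
    have hEW : 0 < E * W := mul_pos (by linarith) (by linarith)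
    have hEWX : E * W ≤ 4 * y := by
      have h1 : 1 ≤ S * T := by
        have : 1 * 1 ≤ S * T := mul_le_mul hS1 hT1 (by norm_num) (by linarith)
        linarith
      have h2 := mul_le_mul_of_nonneg_left h1 hEW.le
      calc E * W = E * W * 1 := by ring
        _ ≤ E * W * (S * T) := h2
        _ = 4 * y := by rw [← hXX]; ring
    by_cases hUV : U * V = 0
    · rw [hUV, mul_zero, sub_zero] at hL
      -- L = q
      have hK : 2 * (q : ℤ) - (8 * y - 1) - E * W * (S * V + T * U) = 1 := by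
        set K := 2 * (q : ℤ) - (8 * y - 1) - E * W * (S * V + T * U)
        have hK1 : 0 < K := by
          by_contra hc
          have : (q : ℤ) * K ≤ 0 := mul_nonpos_of_nonneg_of_nonpos hq0.le (by linarith)
          linarith
        have hK2 : K < 2 := by
          by_contra hc
          have : (q : ℤ) * 2 ≤ q * K := mul_le_mul_of_nonneg_left (by linarith) hq0.le
          linarith
        omega
      rw [hK, mul_one] at hL
      have he0 : e = 0 := by
        by_contra hc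
        obtain ⟨c, hc'⟩ := hE2 hc
        have : (q : ℤ) = 2 * (2 * y - 1 + c * z) := by rw [← hL, hc']; ring
        have h5 : (q : ℤ) % 2 = 1 := by exact_mod_cast hqodd
        omega
      rw [hE0 he0] at hL hK hEz
      set m := S * V + T * U with hm
      have hm0 : 0 ≤ m := add_nonneg (mul_nonneg (by linarith) hv0) (mul_nonneg (by linarith) hu0)
      have hKz : 2 * ((z : ℤ) - 2) = W * m := by linarith
      have hm2 : m < 2 := by
        by_contra hc
        have : W * 2 ≤ W * m := mul_le_mul_of_nonneg_left (by linarith) (by linarith)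
        linarith
      have hz2 : (0 : ℤ) < z - 2 := by linarith
      have hzodd : (z : ℤ) % 2 = 1 := by
        have h5 : (q : ℤ) % 2 = 1 := by exact_mod_cast hqodd
        omega
      have hmm : m = 0 ∨ m = 1 := by omega
      rcases hmm with h0 | h0
      · rw [h0, mul_zero] at hKz; linarith
      · rw [h0, mul_one] at hKz
        by_cases hw1 : w = 1
        · rw [hW2 hw1] at hKz hzwz; linarith
        · obtain ⟨c, hc⟩ := hW4 hw1
          rw [hc] at hKz; omega
    · have hU : U ≠ 0 := fun h => hUV (by rw [h, zero_mul])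
      have hV : V ≠ 0 := fun h => hUV (by rw [h, mul_zero])
      have hs : s ≠ 0 := fun h => hU (hs0 h)
      have ht : t ≠ 0 := fun h => hV (ht0 h)
      have h1 : U * V ≤ (S - 1) * (T - 1) :=
        mul_le_mul (by linarith) (by linarith) hv0 (by linarith)
      have h2 := mul_le_mul_of_nonneg_left h1 hEW.le
      have h3 : E * W * ((S - 1) * (T - 1)) = 4 * y - E * W * (S + T - 1) := by
        linear_combination hXX
      have h4 : E * W * 3 ≤ E * W * (S + T - 1) :=
        mul_le_mul_of_nonneg_left (by linarith [hS2 hs, hT2 ht]) hEW.le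
      have h5 : E * W * 1 ≤ E * W * (U * V) := by
        apply mul_le_mul_of_nonneg_left _ hEW.le
        have h6 : 1 ≤ U := by omega
        have h7 : 1 ≤ V := by omega
        have : 1 * 1 ≤ U * V := mul_le_mul h6 h7 (by norm_num) (by linarith)
        linarith
      have hEW2 : 2 ≤ E * W := by
        have : 1 * 2 ≤ E * W := mul_le_mul hE1 hW1 (by norm_num) (by linarith)
        linarith
      obtain ⟨h6, -⟩ := small_mul hq0 hL (by linarith) (by linarith)
      linarith
  · have h1 : (P : ℤ) = q ^ 2 * (2 ^ a - 1) := by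
      rw [hPP]
      have : 1 ≤ 2 ^ a := Nat.one_le_two_pow
      push_cast [Nat.cast_sub this]
      ring
    rw [h1, hX] at hP
    have hL : (4 * (y : ℤ) - 2) = q * (q - (8 * y - 1)) := by
      linear_combination (-1 : ℤ) * hP
    obtain ⟨h2, -⟩ := small_mul hq0 hL (by linarith) (by linarith)
    omega

end NUP
namespace NUP2

/-- 2-weight of a prime -/
def gw (q : ℕ) (l : ℕ) : ℕ :=
  if l ≤ 2 then 1 else if l = q then 0 else
    ((l + 1).primeFactorsList.attach.map (fun x => if _hx : x.1 < l then gw q x.1 else 0)).sum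
termination_by l

/-- residue of a prime -/
def gr (q : ℕ) (l : ℕ) : ℤ :=
  if l ≤ 2 then 2 else if l = q then 0 else
    ((l + 1).primeFactorsList.attach.map (fun x => if _hx : x.1 < l then gr q x.1 else 0)).prod - 1
termination_by l

def sw (q m : ℕ) : ℕ := (m.primeFactorsList.map (gw q)).sum
def sr (q m : ℕ) : ℤ := (m.primeFactorsList.map (gr q)).prod

theorem sw_mul {q m n : ℕ} (hm : m ≠ 0) (hn : n ≠ 0) : sw q (m * n) = sw q m + sw q n := by
  unfold sw
  rw [((Nat.perm_primeFactorsList_mul hm hn).map (gw q)).sum_eq, List.map_append, List.sum_append]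

theorem sr_mul {q m n : ℕ} (hm : m ≠ 0) (hn : n ≠ 0) : sr q (m * n) = sr q m * sr q n := by
  unfold sr
  rw [((Nat.perm_primeFactorsList_mul hm hn).map (gr q)).prod_eq, List.map_append, List.prod_append]

theorem sw_prime {q p : ℕ} (hp : p.Prime) : sw q p = gw q p := by
  unfold sw; rw [Nat.primeFactorsList_prime hp]; simp

theorem sr_prime {q p : ℕ} (hp : p.Prime) : sr q p = gr q p := by
  unfold sr; rw [Nat.primeFactorsList_prime hp]; simp

theorem fac_lt {l x : ℕ} (hl : l.Prime) (hl2 : l ≠ 2) (hx : x ∈ (l + 1).primeFactorsList) :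
    x < l := by
  have h1 := Nat.prime_of_mem_primeFactorsList hx
  have h2 := Nat.dvd_of_mem_primeFactorsList hx
  have h3 := Nat.le_of_dvd (by omega) h2
  have hodd := hl.eq_two_or_odd.resolve_left hl2
  rcases Nat.lt_or_ge x l with h | h
  · exact h
  · exfalso
    have : x = l ∨ x = l + 1 := by omega
    rcases this with rfl | rfl
    · have : x ∣ 1 := (Nat.dvd_add_right (dvd_refl x)).1 h2
      exact h1.one_lt.ne' (Nat.dvd_one.1 this)
    · have := h1.eq_two_or_odd
      have := hl.two_le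
      omega

theorem gw_odd {q l : ℕ} (hl : l.Prime) (hl2 : l ≠ 2) (hlq : l ≠ q) : gw q l = sw q (l + 1) := by
  have h2 := hl.two_le
  rw [gw, if_neg (by omega), if_neg hlq]
  unfold sw
  congr 1
  refine Eq.trans ?_ List.attach_map_val
  apply List.map_congr_left
  intro x _
  simp [fac_lt hl hl2 x.2]

theorem gr_odd {q l : ℕ} (hl : l.Prime) (hl2 : l ≠ 2) (hlq : l ≠ q) :
    gr q l = sr q (l + 1) - 1 := by
  have h2 := hl.two_le
  rw [gr, if_neg (by omega), if_neg hlq]
  unfold sr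
  congr 2
  refine Eq.trans ?_ List.attach_map_val
  apply List.map_congr_left
  intro x _
  simp [fac_lt hl hl2 x.2]

theorem gw_two {q : ℕ} : gw q 2 = 1 := by rw [gw]; simp
theorem gr_two {q : ℕ} : gr q 2 = 2 := by rw [gr]; simp
theorem gw_q {q : ℕ} (h : 2 < q) : gw q q = 0 := by rw [gw, if_neg (by omega), if_pos rfl]
theorem gr_q {q : ℕ} (h : 2 < q) : gr q q = 0 := by rw [gr, if_neg (by omega), if_pos rfl]

/-- sr is the residue mod q -/
theorem sr_mod {q : ℕ} (h : 2 < q) (m : ℕ) (hm : m ≠ 0) : (q : ℤ) ∣ (m : ℤ) - sr q m := by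
  -- first for primes by strong induction
  have hp : ∀ p : ℕ, p.Prime → (q : ℤ) ∣ (p : ℤ) - gr q p := by
    intro p
    induction p using Nat.strong_induction_on with
    | _ p ih =>
      intro hp
      by_cases h2 : p = 2
      · subst h2; rw [gr_two]; simp
      by_cases hq : p = q
      · subst hq; rw [gr_q h]; simp
      rw [gr_odd hp h2 hq]
      have key : ∀ L : List ℕ, (∀ x ∈ L, (q : ℤ) ∣ (x : ℤ) - gr q x) →
          (q : ℤ) ∣ ((L.prod : ℕ) : ℤ) - (L.map (gr q)).prod := by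
        intro L
        induction L with
        | nil => intro _; simp
        | cons y L ihL =>
          intro hL
          have h1 := hL y (by simp)
          have h2 := ihL (fun x hx => hL x (by simp [hx]))
          rw [List.prod_cons, List.map_cons, List.prod_cons]
          push_cast
          have : (y : ℤ) * (L.prod : ℕ) - gr q y * (L.map (gr q)).prod =
            y * (((L.prod : ℕ) : ℤ) - (L.map (gr q)).prod) + (y - gr q y) * (L.map (gr q)).prod := by
            ring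
          push_cast at this h2
          rw [this]
          exact dvd_add (Dvd.dvd.mul_left h2 _) (Dvd.dvd.mul_right h1 _)
      have h3 := key (p + 1).primeFactorsList (fun x hx =>
        ih x (fac_lt hp h2 hx) (Nat.prime_of_mem_primeFactorsList hx))
      rw [Nat.prod_primeFactorsList (by omega)] at h3
      have : (p : ℤ) - (sr q (p + 1) - 1) = ((p + 1 : ℕ) : ℤ) - sr q (p + 1) := by push_cast; ring
      rw [this]; exact h3
  have key : ∀ L : List ℕ, (∀ x ∈ L, (q : ℤ) ∣ (x : ℤ) - gr q x) →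
      (q : ℤ) ∣ ((L.prod : ℕ) : ℤ) - (L.map (gr q)).prod := by
    intro L
    induction L with
    | nil => intro _; simp
    | cons y L ihL =>
      intro hL
      have h1 := hL y (by simp)
      have h2 := ihL (fun x hx => hL x (by simp [hx]))
      rw [List.prod_cons, List.map_cons, List.prod_cons]
      push_cast
      have : (y : ℤ) * (L.prod : ℕ) - gr q y * (L.map (gr q)).prod =
        y * (((L.prod : ℕ) : ℤ) - (L.map (gr q)).prod) + (y - gr q y) * (L.map (gr q)).prod := by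
        ring
      push_cast at this h2
      rw [this]
      exact dvd_add (Dvd.dvd.mul_left h2 _) (Dvd.dvd.mul_right h1 _)
  have h3 := key m.primeFactorsList (fun x hx => hp x (Nat.prime_of_mem_primeFactorsList hx))
  rw [Nat.prod_primeFactorsList hm] at h3
  exact h3

theorem pow_two_w {q : ℕ} (i : ℕ) : sw q (2 ^ i) = i ∧ sr q (2 ^ i) = 2 ^ i := by
  unfold sw sr
  rw [Nat.Prime.primeFactorsList_pow Nat.prime_two]
  simp [gw_two, gr_two]

theorem bound_list {q : ℕ} : ∀ L : List ℕ, L ≠ [] → (∀ x ∈ L, 1 ≤ gw q x ∧ -((2 : ℤ) ^ gw q x - 1) ≤ gr q x ∧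
    gr q x ≤ 2 ^ gw q x - 3) → 1 ≤ (L.map (gw q)).sum ∧
    -((2 : ℤ) ^ (L.map (gw q)).sum - 1) ≤ (L.map (gr q)).prod ∧
    (L.map (gr q)).prod ≤ 2 ^ (L.map (gw q)).sum - 3 := by
  intro L
  induction L with
  | nil => intro h; exact absurd rfl h
  | cons y L ihL =>
    intro _ hL
    obtain ⟨h1, h2, h3⟩ := hL y (by simp)
    by_cases hLn : L = []
    · subst hLn; simp; exact ⟨h1, by linarith, h3⟩
    obtain ⟨k1, k2, k3⟩ := ihL hLn (fun x hx => hL x (by simp [hx]))
    rw [List.map_cons, List.sum_cons, List.map_cons, List.prod_cons]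
    set U := (L.map (gw q)).sum
    set V := (L.map (gr q)).prod
    have hA : (2 : ℤ) ≤ 2 ^ gw q y := by
      calc (2 : ℤ) = 2 ^ 1 := by norm_num
        _ ≤ _ := pow_le_pow_right₀ (by norm_num) h1
    have hB : (2 : ℤ) ≤ 2 ^ U := by
      calc (2 : ℤ) = 2 ^ 1 := by norm_num
        _ ≤ _ := pow_le_pow_right₀ (by norm_num) k1
    rw [pow_add]
    set A := (2 : ℤ) ^ gw q y
    set B := (2 : ℤ) ^ U
    have ha : |gr q y| ≤ A - 1 := abs_le.2 ⟨h2, by linarith⟩
    have hb : |V| ≤ B - 1 := abs_le.2 ⟨k2, by linarith⟩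
    have hab : |gr q y * V| ≤ (A - 1) * (B - 1) := by
      rw [abs_mul]; exact mul_le_mul ha hb (abs_nonneg _) (by linarith)
    have hab' := abs_le.1 hab
    refine ⟨by omega, ?_, ?_⟩
    · nlinarith [hab'.1]
    · nlinarith [hab'.2]

/-- bounds: `G` a set of primes closed under the recursion, no member is a Mersenne prime -/
theorem bound {q : ℕ} (hq2 : 2 < q) (hq : q.Prime) (G : Set ℕ)
    (hG : ∀ r ∈ G, r.Prime ∧ r ≠ 2 ∧ r ≠ q)
    (hcl : ∀ r ∈ G, ∀ l : ℕ, l.Prime → l ∣ r + 1 → l = 2 ∨ l = q ∨ l ∈ G)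
    (hM : ∀ r ∈ G, ∀ i : ℕ, r + 1 ≠ 2 ^ i) :
    (∀ r : ℕ, r ∈ G → 1 ≤ gw q r ∧ -((2 : ℤ) ^ gw q r - 1) ≤ gr q r ∧ gr q r ≤ 2 ^ gw q r - 3) := by
  intro r
  induction r using Nat.strong_induction_on with
  | _ r ih =>
    intro hr
    obtain ⟨hrp, hr2, hrq⟩ := hG r hr
    rw [gw_odd hrp hr2 hrq, gr_odd hrp hr2 hrq]
    have hrodd := hrp.eq_two_or_odd.resolve_left hr2
    obtain ⟨i, c, hc, hic⟩ := Nat.exists_eq_pow_mul_and_not_dvd (show r + 1 ≠ 0 by omega) 2 (by norm_num)
    have hi : 1 ≤ i := by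
      by_contra h0
      have : i = 0 := by omega
      subst this
      rw [pow_zero, one_mul] at hic
      omega
    have hc0 : c ≠ 0 := by rintro rfl; simp at hc
    have h2i : (2 ^ i : ℕ) ≠ 0 := by positivity
    rw [hic, sw_mul h2i hc0, sr_mul h2i hc0, (pow_two_w i).1, (pow_two_w i).2]
    have hI : (2 : ℤ) ≤ 2 ^ i := by
      calc (2 : ℤ) = 2 ^ 1 := by norm_num
        _ ≤ _ := pow_le_pow_right₀ (by norm_num) hi
    have hcr : c ∣ r + 1 := ⟨2 ^ i, by rw [hic]; ring⟩
    have hSc : (1 : ℤ) ≤ 2 ^ sw q c := one_le_pow₀ (by norm_num)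
    by_cases hqc : q ∣ c
    · obtain ⟨c', rfl⟩ := hqc
      have hc'0 : c' ≠ 0 := by rintro rfl; simp at hc0
      have : sr q (q * c') = 0 := by rw [sr_mul (by omega) hc'0, sr_prime hq, gr_q hq2]; ring
      rw [this, pow_add]
      refine ⟨by omega, ?_, ?_⟩
      · nlinarith
      · nlinarith
    · have hcne : c.primeFactorsList ≠ [] := by
        intro h0
        rw [Nat.primeFactorsList_eq_nil] at h0
        rcases h0 with h0 | h0
        · exact hc0 h0
        · exact hM r hr i (by rw [hic, h0, mul_one])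
      obtain ⟨k1, k2, k3⟩ := bound_list c.primeFactorsList hcne (by
        intro x hx
        have hxp := Nat.prime_of_mem_primeFactorsList hx
        have hxc := Nat.dvd_of_mem_primeFactorsList hx
        have hxr : x ∣ r + 1 := dvd_trans hxc hcr
        have hxG : x ∈ G := by
          rcases hcl r hr x hxp hxr with h | h | h
          · exact absurd (h ▸ hxc) hc
          · exact absurd (h ▸ hxc) hqc
          · exact h
        exact ih x (fac_lt hrp hr2 ((Nat.mem_primeFactorsList (by omega)).2 ⟨hxp, hxr⟩)) hxG)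
      change 1 ≤ sw q c at k1
      change -((2 : ℤ) ^ sw q c - 1) ≤ sr q c at k2
      change sr q c ≤ (2 : ℤ) ^ sw q c - 3 at k3
      rw [pow_add]
      set B := (2 : ℤ) ^ sw q c
      set I := (2 : ℤ) ^ i
      refine ⟨by omega, ?_, ?_⟩
      · nlinarith
      · nlinarith


theorem filt {p1 p2 a b : ℕ} (h1 : p1.Prime) (h2 : p2.Prime) (hne : p1 ≠ p2) :
    (NUP.nd (p1 ^ a * p2 ^ b)).filter (fun d => ¬ p2 ∣ d) = (Ioo 0 a).image (fun i => p1 ^ i) := by
  have hn : 0 < p1 ^ a * p2 ^ b := Nat.mul_pos (pow_pos h1.pos _) (pow_pos h2.pos _)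
  ext d
  rw [mem_filter, NUP.mem_nd hn, mem_image]
  constructor
  · rintro ⟨⟨l, hl, e, he, h3, h4⟩, h5⟩
    have hc : d.Coprime (p2 ^ b) :=
      Nat.Coprime.pow_right _ (Nat.Coprime.symm ((h2.coprime_iff_not_dvd).2 h5))
    have h6 : d ∣ p1 ^ a := hc.dvd_of_dvd_mul_right ⟨e, he⟩
    obtain ⟨i, hi, rfl⟩ := (Nat.dvd_prime_pow h1).1 h6
    have hl1 : l = p1 := (Nat.prime_dvd_prime_iff_eq hl h1).1 (hl.dvd_of_dvd_pow h3)
    subst hl1
    refine ⟨i, mem_Ioo.2 ⟨?_, ?_⟩, rfl⟩
    · rcases Nat.eq_zero_or_pos i with h0 | h0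
      · subst h0; rw [pow_zero] at h3
        exact absurd (Nat.dvd_one.1 h3) hl.one_lt.ne'
      · exact h0
    · by_contra hc'
      have hia : i = a := by omega
      subst hia
      have : e = p2 ^ b := (Nat.eq_of_mul_eq_mul_left (pow_pos h1.pos _) he).symm
      rw [this] at h4
      exact hne ((Nat.prime_dvd_prime_iff_eq hl h2).1 (hl.dvd_of_dvd_pow h4))
  · rintro ⟨i, hi, rfl⟩
    rw [mem_Ioo] at hi
    have e1 : p1 ^ a = p1 ^ i * p1 ^ (a - i) := by rw [← pow_add]; congr 1; omega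
    refine ⟨⟨p1, h1, p1 ^ (a - i) * p2 ^ b, by rw [e1]; ring, dvd_pow_self _ (by omega),
      Dvd.dvd.mul_right (dvd_pow_self _ (by omega)) _⟩, fun h => ?_⟩
    exact hne ((Nat.prime_dvd_prime_iff_eq h2 h1).1 (h2.dvd_of_dvd_pow h)).symm

/-- the sum over nonunitary divisors of `p1^a p2^b` modulo `p2` -/
theorem modp {p1 p2 a b : ℕ} (h1 : p1.Prime) (h2 : p2.Prime) (hne : p1 ≠ p2) :
    ∃ t, ∑ d ∈ NUP.nd (p1 ^ a * p2 ^ b), d = p2 * t + ∑ i ∈ Ioo 0 a, p1 ^ i := by
  have h := Finset.sum_filter_add_sum_filter_not (NUP.nd (p1 ^ a * p2 ^ b)) (fun d => p2 ∣ d)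
    (fun d => d)
  rw [filt h1 h2 hne, sum_image (fun i _ j _ hij => Nat.pow_right_injective h1.two_le hij)] at h
  obtain ⟨t, ht⟩ : p2 ∣ ∑ d ∈ (NUP.nd (p1 ^ a * p2 ^ b)).filter (fun d => p2 ∣ d), d :=
    Finset.dvd_sum fun d hd => (mem_filter.1 hd).2
  exact ⟨t, by rw [← h, ht]⟩

theorem even_D {q a b : ℕ} (hq : q.Prime) (hq2 : q ≠ 2) (hb : Odd b) :
    2 ∣ ∑ d ∈ NUP.nd (2 ^ a * q ^ b), d := by
  obtain ⟨t, ht⟩ := modp (a := b) (b := a) hq Nat.prime_two hq2
  rw [mul_comm (2 ^ a), ht]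
  apply dvd_add (dvd_mul_right _ _)
  have hqodd : Odd q := hq.odd_of_ne_two hq2
  rw [← even_iff_two_dvd, Finset.even_sum_iff_even_card_odd]
  have : (Ioo 0 b).filter (fun i => Odd (q ^ i)) = Ioo 0 b :=
    Finset.filter_true_of_mem fun i _ => hqodd.pow
  rw [this, Nat.card_Ioo]
  obtain ⟨c, rfl⟩ := hb
  exact ⟨c, by omega⟩

theorem sw_prod {q : ℕ} (T : Finset ℕ) (hT : ∀ r ∈ T, r.Prime ∧ r ≠ 2 ∧ r ≠ q) :
    sw q (∏ r ∈ T, r) = sw q (∏ r ∈ T, (r + 1)) := by
  induction T using Finset.induction_on with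
  | empty => simp
  | insert p T hpT ih =>
    obtain ⟨h1, h2, h3⟩ := hT p (mem_insert_self _ _)
    have hT' : ∀ r ∈ T, r.Prime ∧ r ≠ 2 ∧ r ≠ q := fun r hr => hT r (mem_insert_of_mem hr)
    have e1 : ∏ r ∈ T, r ≠ 0 := prod_ne_zero_iff.2 fun r hr => (hT' r hr).1.ne_zero
    have e2 : ∏ r ∈ T, (r + 1) ≠ 0 := prod_ne_zero_iff.2 fun r _ => by omega
    rw [prod_insert hpT, prod_insert hpT, sw_mul h1.ne_zero e1, sw_mul (by omega) e2, ih hT',
      sw_prime h1, gw_odd h1 h2 h3]

theorem no_odd {a q b : ℕ} (hq : q.Prime) (hq2 : q ≠ 2) (ha : 2 ≤ a)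
    (hb : Odd b ∨ 2 ^ (a + 1) < q) (hb0 : 0 < b)
    (hqa : 2 ^ a < q) (T : Finset ℕ) (hT : ∀ r ∈ T, r.Prime ∧ r ≠ 2 ∧ r ≠ q ∧ 2 ^ (a - 1) < r)
    (hE : (∏ r ∈ T, (r + 1)) * (∑ d ∈ NUP.nd (2 ^ a * q ^ b), d) = 2 ^ a * q ^ b * ∏ r ∈ T, r) :
    False := by
  have hq3 : 2 < q := by have := hq.two_le; omega
  obtain ⟨t, ht⟩ := modp (a := a) (b := b) Nat.prime_two hq (Ne.symm hq2)
  set D := ∑ d ∈ NUP.nd (2 ^ a * q ^ b), d with hD
  have hgeo : (∑ i ∈ Ioo 0 a, 2 ^ i) + 2 = 2 ^ a := by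
    obtain ⟨a', rfl⟩ : ∃ a', a = a' + 1 := ⟨a - 1, by omega⟩
    exact NUP.two_geom' a'
  have hP0 : ∏ r ∈ T, r ≠ 0 := prod_ne_zero_iff.2 fun r hr => (hT r hr).1.ne_zero
  have hP1 : ∏ r ∈ T, (r + 1) ≠ 0 := prod_ne_zero_iff.2 fun r _ => by omega
  have h2a : (2 ^ a : ℕ) ≠ 0 := by positivity
  have hqb : (q ^ b : ℕ) ≠ 0 := pow_ne_zero _ hq.ne_zero
  have hD0 : D ≠ 0 := by
    intro h0
    rw [h0, mul_zero] at hE
    exact (mul_ne_zero (mul_ne_zero h2a hqb) hP0) hE.symm
  -- weight of D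
  have hswq : sw q (q ^ b) = 0 := by
    unfold sw
    rw [Nat.Prime.primeFactorsList_pow hq]
    simp [gw_q hq3]
  have hsw : sw q D = a := by
    have h := congrArg (sw q) hE
    rw [sw_mul hP1 hD0, sw_mul (mul_ne_zero h2a hqb) hP0, sw_mul h2a hqb, (pow_two_w a).1, hswq,
      sw_prod T (fun r hr => ⟨(hT r hr).1, (hT r hr).2.1, (hT r hr).2.2.1⟩)] at h
    omega
  have hqD : ¬ q ∣ D := by
    intro h
    rw [ht] at h
    have h5 := (Nat.dvd_add_right (dvd_mul_right q t)).1 h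
    have h6 : 4 ≤ 2 ^ a := by
      calc 4 = 2 ^ 2 := by norm_num
        _ ≤ 2 ^ a := Nat.pow_le_pow_right (by norm_num) ha
    have := Nat.le_of_dvd (by omega) h5
    omega
  -- primes dividing the right side
  have hprimes : ∀ l : ℕ, l.Prime → l ∣ 2 ^ a * q ^ b * ∏ r ∈ T, r → l = 2 ∨ l = q ∨ l ∈ T := by
    intro l hl hd
    rcases (Nat.Prime.dvd_mul hl).1 hd with h | h
    · rcases (Nat.Prime.dvd_mul hl).1 h with h | h
      · exact Or.inl ((Nat.prime_dvd_prime_iff_eq hl Nat.prime_two).1 (hl.dvd_of_dvd_pow h))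
      · exact Or.inr (Or.inl ((Nat.prime_dvd_prime_iff_eq hl hq).1 (hl.dvd_of_dvd_pow h)))
    · obtain ⟨r, hr, hlr⟩ := (Prime.dvd_finsetProd_iff hl.prime _).1 h
      exact Or.inr (Or.inr (((Nat.prime_dvd_prime_iff_eq hl (hT r hr).1).1 hlr) ▸ hr))
  have hb1 := bound hq3 hq (G := (T : Set ℕ))
    (fun r hr => ⟨(hT r hr).1, (hT r hr).2.1, (hT r hr).2.2.1⟩)
    (by
      intro r hr l hl hlr
      rcases hprimes l hl (hE ▸ Dvd.dvd.mul_right
        (dvd_trans hlr (Finset.dvd_prod_of_mem (fun r => r + 1) (mem_coe.1 hr))) _) with h | h | h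
      · exact Or.inl h
      · exact Or.inr (Or.inl h)
      · exact Or.inr (Or.inr h))
    (by
      intro r hr i hi
      have hr' := hT r hr
      have hai : a ≤ i := by
        by_contra hc
        have : 2 ^ i ≤ 2 ^ (a - 1) := Nat.pow_le_pow_right (by norm_num) (by omega)
        omega
      by_cases hTr : T = {r}
      · rw [hTr, prod_singleton, prod_singleton] at hE
        have h1 : q ∣ (r + 1) * D := by
          rw [hE]
          exact Dvd.dvd.mul_right (Dvd.dvd.mul_left (dvd_pow_self q (by omega)) _) _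
        rcases (Nat.Prime.dvd_mul hq).1 h1 with h2 | h2
        · rw [hi] at h2
          exact hq2 ((Nat.prime_dvd_prime_iff_eq hq Nat.prime_two).1 (hq.dvd_of_dvd_pow h2))
        · exact hqD h2
      obtain ⟨r1, hr1, hne⟩ : ∃ r1 ∈ T, r1 ≠ r := by
        by_contra hc
        push Not at hc
        exact hTr (Finset.eq_singleton_iff_unique_mem.2 ⟨hr, hc⟩)
      have hpr : (r + 1) * (r1 + 1) ∣ ∏ r ∈ T, (r + 1) := by
        rw [← Finset.mul_prod_erase T (fun r => r + 1) (mem_coe.1 hr)]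
        exact mul_dvd_mul (dvd_refl _)
          (Finset.dvd_prod_of_mem (fun r => r + 1) (mem_erase.2 ⟨hne, hr1⟩))
      have hr1o := (hT r1 hr1).1.eq_two_or_odd.resolve_left (hT r1 hr1).2.1
      have h1 : 2 ^ (i + 1) ∣ 2 ^ a * q ^ b * ∏ r ∈ T, r := by
        rw [← hE, pow_succ]
        refine Dvd.dvd.mul_right (dvd_trans (mul_dvd_mul ?_ ?_) hpr) _
        · rw [hi]
        · omega
      have h2 : 2 ∣ q ^ b * ∏ r ∈ T, r := by
        have h3 : 2 ^ (a + 1) ∣ 2 ^ a * (q ^ b * ∏ r ∈ T, r) := by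
          rw [← mul_assoc]; exact dvd_trans (pow_dvd_pow 2 (by omega)) h1
        rw [pow_succ] at h3
        exact Nat.dvd_of_mul_dvd_mul_left (by positivity) h3
      rcases (Nat.Prime.dvd_mul Nat.prime_two).1 h2 with h | h
      · exact hq2 ((Nat.prime_dvd_prime_iff_eq Nat.prime_two hq).1
          (Nat.prime_two.dvd_of_dvd_pow h)).symm
      · obtain ⟨r', hr', h2r⟩ := (Prime.dvd_finsetProd_iff Nat.prime_two.prime _).1 h
        exact (hT r' hr').2.1 ((Nat.prime_dvd_prime_iff_eq Nat.prime_two (hT r' hr').1).1 h2r).symm)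
  -- D = 2^e O
  obtain ⟨e, O, hO, hDO⟩ := Nat.exists_eq_pow_mul_and_not_dvd hD0 2 (by norm_num)
  have he : Odd b → 1 ≤ e := by
    intro hob
    have hev := even_D (a := a) hq hq2 hob
    by_contra h0
    have : e = 0 := by omega
    subst this
    rw [pow_zero, one_mul] at hDO
    exact hO (hDO ▸ hev)
  have hO0 : O ≠ 0 := by rintro rfl; simp at hO
  have h2e : (2 ^ e : ℕ) ≠ 0 := by positivity
  have hOsw : e + sw q O = a := by
    rw [hDO, sw_mul h2e hO0, (pow_two_w e).1] at hsw; exact hsw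
  have hmod1 : (q : ℤ) ∣ (D : ℤ) - sr q D := sr_mod hq3 D hD0
  have hmod2 : (q : ℤ) ∣ (D : ℤ) - (2 ^ a - 2) := by
    have h1 : (D : ℤ) = q * t + (2 ^ a - 2) := by
      have h5 : (∑ i ∈ Ioo 0 a, 2 ^ i) = 2 ^ a - 2 := by omega
      have h6 : 2 ≤ 2 ^ a := by omega
      rw [ht, h5]
      push_cast [Nat.cast_sub h6]
      ring
    rw [h1]; exact ⟨t, by ring⟩
  have hmod : (q : ℤ) ∣ (2 ^ a - 2) - sr q D := by
    have := dvd_sub hmod1 hmod2
    have e1 : (D : ℤ) - sr q D - (D - (2 ^ a - 2)) = (2 ^ a - 2) - sr q D := by ring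
    rwa [e1] at this
  have hsrD : sr q D = 2 ^ e * sr q O := by
    rw [hDO, sr_mul h2e hO0, (pow_two_w e).2]
  have hqz : (2 : ℤ) ^ a < q := by exact_mod_cast hqa
  by_cases hO1 : O.primeFactorsList = []
  · -- O = 1
    rw [Nat.primeFactorsList_eq_nil] at hO1
    rcases hO1 with h | h
    · exact hO0 h
    · have h1 : sw q O = 0 := by rw [h]; simp [sw]
      have h2 : sr q O = 1 := by rw [h]; simp [sr]
      rw [hsrD, h2, mul_one] at hmod
      have : e = a := by omega
      rw [this] at hmod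
      have h3 : (q : ℤ) ∣ 2 := by
        have := (dvd_neg.2 hmod)
        have e1 : -((2 : ℤ) ^ a - 2 - 2 ^ a) = 2 := by ring
        rwa [e1] at this
      have := Int.le_of_dvd (by norm_num) h3
      omega
  · obtain ⟨k1, k2, k3⟩ := bound_list (q := q) O.primeFactorsList hO1 (by
      intro l hl
      have hlp := Nat.prime_of_mem_primeFactorsList hl
      have hlO := Nat.dvd_of_mem_primeFactorsList hl
      have hlD : l ∣ D := hDO ▸ Dvd.dvd.mul_left hlO _
      rcases hprimes l hlp (hE ▸ Dvd.dvd.mul_left hlD _) with h | h | h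
      · exact absurd (h ▸ hlO) hO
      · exact absurd (h ▸ hlD) hqD
      · exact hb1 l (mem_coe.2 h))
    change 1 ≤ sw q O at k1
    change -((2 : ℤ) ^ sw q O - 1) ≤ sr q O at k2
    change sr q O ≤ (2 : ℤ) ^ sw q O - 3 at k3
    have hI : (1 : ℤ) ≤ 2 ^ e := one_le_pow₀ (by norm_num)
    have hx : (2 : ℤ) ^ a = 2 ^ e * 2 ^ sw q O := by rw [← pow_add, hOsw]
    have hIev : Odd b → (2 : ℤ) ∣ 2 ^ e := fun h => dvd_pow_self _ (by have := he h; omega)
    rw [hsrD] at hmod
    obtain ⟨K, hK⟩ := hmod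
    have hxx : (2 : ℤ) ^ (a + 1) = 2 * 2 ^ a := by rw [pow_succ]; ring
    have hb' : Odd b ∨ 2 * (2 : ℤ) ^ a < q := by
      rcases hb with h | h
      · exact Or.inl h
      · right; rw [← hxx]; exact_mod_cast h
    set I := (2 : ℤ) ^ e
    set B := (2 : ℤ) ^ sw q O
    set ρ := sr q O
    have h1 : I * ρ ≤ I * (B - 3) := mul_le_mul_of_nonneg_left k3 (by linarith)
    have h2 : I * (-(B - 1)) ≤ I * ρ := mul_le_mul_of_nonneg_left k2 (by linarith)
    have h3 : 0 < (q : ℤ) * K := by rw [← hK, hx]; nlinarith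
    have hq0 : (0 : ℤ) < q := by exact_mod_cast hq.pos
    have hK1 : 0 < K := by
      by_contra hc
      have := mul_nonpos_of_nonneg_of_nonpos hq0.le (by linarith : K ≤ 0)
      linarith
    have hK2 : K < 2 := by
      by_contra hc
      have h5 : (q : ℤ) * 2 ≤ q * K := mul_le_mul_of_nonneg_left (by linarith) hq0.le
      rw [← hK] at h5
      nlinarith
    have hK3 : K = 1 := by omega
    rw [hK3, mul_one] at hK
    rcases hb' with hob | hbig
    · obtain ⟨c, hc⟩ := hIev hob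
      have hqo : (q : ℤ) % 2 = 1 := by
        have := hq.eq_two_or_odd.resolve_left hq2
        exact_mod_cast this
      have : (q : ℤ) = 2 * (c * B - 1 - c * ρ) := by rw [← hK, hx, hc]; ring
      omega
    · rw [← hK, hx] at hbig
      nlinarith

end NUP2

theorem two_squares {n : ℕ} (hn : 0 < n) (hE : ∑ d ∈ NUP.nd n, d = n)
    (hex : ¬ ∃ p : ℕ, Nat.Prime (2 ^ p - 1) ∧ n = 2 ^ (p + 1) * (2 ^ p - 1)) :
    ∃ p q : ℕ, p.Prime ∧ q.Prime ∧ p ≠ q ∧ p ^ 2 ∣ n ∧ q ^ 2 ∣ n := by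
  by_contra hc
  push Not at hc
  have hns : ¬ Squarefree n := by
    intro hs
    have : NUP.nd n = ∅ := by
      rw [Finset.eq_empty_iff_forall_notMem]
      intro d hd
      rw [NUP.mem_nd hn] at hd
      obtain ⟨l, hl, e, he, h1, h2⟩ := hd
      have h3 : l * l ∣ n := by rw [he]; exact mul_dvd_mul h1 h2
      exact hl.one_lt.ne' (Nat.isUnit_iff.1 (hs l h3))
    rw [this] at hE
    simp at hE; omega
  rw [Nat.squarefree_iff_prime_squarefree] at hns
  push Not at hns
  obtain ⟨p, hp, hpn⟩ := hns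
  obtain ⟨b, f, hpf, hf⟩ := Nat.exists_eq_pow_mul_and_not_dvd hn.ne' p hp.one_lt.ne'
  have hb0 : 0 < b := by
    rcases Nat.eq_zero_or_pos b with h0 | h0
    · subst h0; rw [pow_zero, one_mul] at hf
      exact absurd (dvd_trans (dvd_mul_right p p) hpn) (hf ▸ hpf)
    · exact h0
  have hfs : Squarefree f := by
    rw [Nat.squarefree_iff_prime_squarefree]
    intro q hq hqf
    by_cases hpq : p = q
    · subst hpq; exact hpf (dvd_trans (dvd_mul_right p p) hqf)
    · refine hc p q hp hq hpq (by rw [pow_two]; exact hpn) ?_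
      rw [pow_two, hf]; exact Dvd.dvd.mul_left hqf _
  obtain ⟨b', rfl⟩ : ∃ b', b = b' + 1 := ⟨b - 1, by omega⟩
  have := NUP.partA hp hfs hpf (by rw [← hf]; exact hE)
  obtain ⟨h1, h2, h3⟩ := this
  exact hex ⟨b', h2, by rw [hf, h1, h3]⟩

/-- A nonunitary perfect number `n` that is divisible by the square of at most one odd prime `q`
is of the form `2 ^ (p + 1) * (2 ^ p - 1)` with `2 ^ p - 1` prime if 4 does not divide `n`, or the
exponent of `q` is 2 or odd, or `q > 2 ^ (a + 1)`, `a` the exponent of 2. -/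
theorem result (n : ℕ) (hn : 0 < n)
    (h : (∑ d ∈ n.divisors.filter (fun d => 1 < Nat.gcd d (n / d)), d) = n)
    (h3 : 4 ∣ n → ∀ q : ℕ, q.Prime → q ≠ 2 → q ^ 2 ∣ n →
      n.factorization q = 2 ∨ Odd (n.factorization q) ∨ 2 ^ (n.factorization 2 + 1) < q)
    (h4 : ∀ p q : ℕ, p.Prime → q.Prime → p ≠ 2 → q ≠ 2 → p ^ 2 ∣ n → q ^ 2 ∣ n → p = q) :
    ∃ p : ℕ, Nat.Prime (2 ^ p - 1) ∧ n = 2 ^ (p + 1) * (2 ^ p - 1) := by
  by_contra hex
  have hE : ∑ d ∈ NUP.nd n, d = n := h
  obtain ⟨p0, q0, hp0, hq0, hpq0, hp0n, hq0n⟩ := two_squares hn hE hex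
  -- the odd prime q with q^2 | n, and 4 | n
  obtain ⟨q, hq, hq2, hqn, h4n⟩ : ∃ q : ℕ, q.Prime ∧ q ≠ 2 ∧ q ^ 2 ∣ n ∧ 2 ^ 2 ∣ n := by
    by_cases hp2 : p0 = 2
    · exact ⟨q0, hq0, fun h => hpq0 (by rw [hp2, h]), hq0n, hp2 ▸ hp0n⟩
    · by_cases hq2 : q0 = 2
      · exact ⟨p0, hp0, hp2, hp0n, hq2 ▸ hq0n⟩
      · exact absurd (h4 p0 q0 hp0 hq0 hp2 hq2 hp0n hq0n) hpq0
  have h4n' : 2 ^ 2 ∣ n := h4n
  obtain ⟨a, m, hm2, hnm⟩ := Nat.exists_eq_pow_mul_and_not_dvd hn.ne' 2 (by norm_num)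
  have hm0 : 0 < m := by
    rcases Nat.eq_zero_or_pos m with h0 | h0
    · subst h0; omega
    · exact h0
  have h2q : ¬ 2 ∣ q := fun h => hq2 ((Nat.prime_dvd_prime_iff_eq Nat.prime_two hq).1 h).symm
  have hc2q : ∀ i j : ℕ, (q ^ i).Coprime (2 ^ j) := fun i j =>
    Nat.Coprime.pow _ _ ((Nat.coprime_primes hq Nat.prime_two).2 hq2)
  have ha : 2 ≤ a := by
    by_contra hc
    have hc1 : (2 ^ 2).Coprime m := Nat.Coprime.pow_left _ ((Nat.prime_two.coprime_iff_not_dvd).2 hm2)
    rw [hnm] at h4n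
    have := Nat.le_of_dvd (pow_pos (by norm_num) _) (hc1.dvd_of_dvd_mul_right h4n)
    have h5 : 2 ^ a ≤ 2 ^ 1 := Nat.pow_le_pow_right (by norm_num) (by omega)
    norm_num at this h5
    omega
  obtain ⟨b, f, hqf, hf⟩ := Nat.exists_eq_pow_mul_and_not_dvd hm0.ne' q hq.one_lt.ne'
  have hf0 : 0 < f := by
    rcases Nat.eq_zero_or_pos f with h0 | h0
    · subst h0; omega
    · exact h0
  have hnb : n = q ^ b * (2 ^ a * f) := by rw [hnm, hf]; ring
  have hfac : n.factorization q = b := by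
    rw [hnb, Nat.factorization_mul (pow_ne_zero _ hq.ne_zero)
      (mul_ne_zero (by positivity) hf0.ne'), hq.factorization_pow]
    have : (2 ^ a * f).factorization q = 0 := by
      apply Nat.factorization_eq_zero_of_not_dvd
      intro h5
      rcases (Nat.Prime.dvd_mul hq).1 h5 with h6 | h6
      · exact hq2 ((Nat.prime_dvd_prime_iff_eq hq Nat.prime_two).1 (hq.dvd_of_dvd_pow h6))
      · exact hqf h6
    simp [this]
  have hfac2 : n.factorization 2 = a := by
    rw [hnm, Nat.factorization_mul (by positivity) hm0.ne', Nat.prime_two.factorization_pow]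
    have : m.factorization 2 = 0 := Nat.factorization_eq_zero_of_not_dvd hm2
    simp [this]
  have hb2 : 2 ≤ b := by
    by_contra hc
    have h5 : q ^ 2 ∣ q ^ b * (2 ^ a * f) := hnb ▸ hqn
    have h6 : q ^ 2 = q ^ b * q ^ (2 - b) := by rw [← pow_add]; congr 1; omega
    rw [h6] at h5
    have h7 := Nat.dvd_of_mul_dvd_mul_left (pow_pos hq.pos b) h5
    have h8 : q ∣ 2 ^ a * f := dvd_trans (dvd_pow_self q (by omega)) h7
    rcases (Nat.Prime.dvd_mul hq).1 h8 with h6 | h6
    · exact hq2 ((Nat.prime_dvd_prime_iff_eq hq Nat.prime_two).1 (hq.dvd_of_dvd_pow h6))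
    · exact hqf h6
  have hf2 : ¬ 2 ∣ f := fun h => hm2 (hf ▸ Dvd.dvd.mul_left h _)
  have hfs : Squarefree f := by
    rw [Nat.squarefree_iff_prime_squarefree]
    intro r hr hrf
    have hr2 : r ≠ 2 := by
      rintro rfl; exact hf2 (dvd_trans (dvd_mul_right 2 2) hrf)
    have hrn : r ^ 2 ∣ n := by
      rw [hnb, pow_two]; exact Dvd.dvd.mul_left (Dvd.dvd.mul_left hrf _) _
    have := h4 r q hr hq hr2 hq2 hrn hqn
    subst this
    exact hqf (dvd_trans (dvd_mul_right r r) hrf)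
  have hT : ∏ r ∈ f.primeFactors, r = f := Nat.prod_primeFactors_of_squarefree hfs
  have hn' : n = 2 ^ a * q ^ b * f := by rw [hnm, hf]; ring
  obtain ⟨a', rfl⟩ : ∃ a', a = a' + 1 := ⟨a - 1, by omega⟩
  have hn2 : n = 2 ^ (a' + 1) * q ^ 2 * (q ^ (b - 2) * f) := by
    have h6 : q ^ b = q ^ 2 * q ^ (b - 2) := by rw [← pow_add]; congr 1; omega
    rw [hn', h6]; ring
  have hqa : 2 ^ (a' + 1) < q :=
    NUP.partB1 (k := q ^ (b - 2) * f) hq hq2 (by rw [← hn2]; exact hE)
      (Nat.mul_pos (pow_pos hq.pos _) hf0) (by omega)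
  have hr : ∀ r ∈ f.primeFactors, r.Prime ∧ r ≠ 2 ∧ 2 ^ (a' + 1 - 1) < r := by
    intro r hr
    have hrp := Nat.prime_of_mem_primeFactors hr
    obtain ⟨k, hk⟩ := Nat.dvd_of_mem_primeFactors hr
    have hr2 : r ≠ 2 := by rintro rfl; exact hf2 ⟨k, hk⟩
    refine ⟨hrp, hr2, ?_⟩
    have e : n = 2 ^ (a' + 1) * r * (q ^ b * k) := by rw [hn', hk]; ring
    rw [Nat.add_sub_cancel]
    apply NUP.partB2 (k := q ^ b * k) hrp hr2 (by rw [← e]; exact hE)
    · intro h5
      rcases (Nat.Prime.dvd_mul Nat.prime_two).1 h5 with h6 | h6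
      · exact h2q (Nat.prime_two.dvd_of_dvd_pow h6)
      · exact hf2 (hk ▸ Dvd.dvd.mul_left h6 _)
    · rw [← e]; exact hex
  have hx0 : 0 < 2 ^ (a' + 1) * q ^ b := Nat.mul_pos (pow_pos (by norm_num) _) (pow_pos hq.pos _)
  have hN := NUP.N_prod f.primeFactors (2 ^ (a' + 1) * q ^ b) hx0 (by
    intro r hr'
    obtain ⟨h5, h6, -⟩ := hr r hr'
    refine ⟨h5, fun h7 => ?_⟩
    rcases (Nat.Prime.dvd_mul h5).1 h7 with h8 | h8
    · exact h6 ((Nat.prime_dvd_prime_iff_eq h5 Nat.prime_two).1 (h5.dvd_of_dvd_pow h8))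
    · have := (Nat.prime_dvd_prime_iff_eq h5 hq).1 (h5.dvd_of_dvd_pow h8)
      exact hqf (this ▸ Nat.dvd_of_mem_primeFactors hr'))
  rw [hT, ← hn', hE] at hN
  rcases h3 (by simpa using h4n') q hq hq2 hqn with h5 | h5
  · rw [hfac] at h5
    subst h5
    rw [NUP.N_two_sq hq hq2] at hN
    have hTy : NUP.Ty (a' + 1) q _ := NUP.shape hq hq2 (by omega) f.primeFactors _ hr
      (by rw [← hN, hT, hn'])
    refine NUP.noTy hq hq2 ha hqa ?_ hTy
    have h8 : 2 ≤ 2 ^ (a' + 1) := by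
      rw [pow_succ]; have := pow_pos (show 0 < 2 by norm_num) a'; omega
    push_cast [Nat.cast_sub h8, Nat.cast_sub (show 1 ≤ 2 * 2 ^ (a' + 1) by omega)]
    ring
  · rw [hfac, hfac2] at h5
    exact NUP2.no_odd hq hq2 ha h5 (by omega) hqa f.primeFactors
      (fun r hr' => ⟨(hr r hr').1, (hr r hr').2.1,
        fun h => hqf (h ▸ Nat.dvd_of_mem_primeFactors hr'), (hr r hr').2.2⟩)
      (by rw [← hN, hT, hn'])

end Pool.Agent.Results.MP_f7abb8_nt.SingleOddSquare
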